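import Pool.Agent.Y148.BB.Defs

/-!
# Bloch-Beilinson filtrations in bounded codimension
-/

set_option autoImplicit false

open CategoryTheory AlgebraicGeometry

universe u v w

namespace Pool.Agent.Hx18.BB

open Pool.Agent.H914 Pool.Agent.H914.VarClass Pool.Agent.H914.VarClass.Obj Pool.Agent.W492.BB
  Pool.Agent.W550.Corr Pool.Agent.TH133 Pool.Agent.Y148.BB

variable {k : Type u} [Field k] {𝒱 : VarClass k}

/-- `F X j ν`, for `j ≤ J`, is the step `F^ν CH^j(X)` of a Bloch-Beilinson filtration on the Chow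
groups of codimension at most `J` of the varieties `X` in the class `S`: the conditions 1, 2, 3, 4
of the problem, restricted to the Chow groups of codimension at most `J` (`N` being the kernels of
the Abel-Jacobi maps). -/
structure IsBlochBeilinsonUpTo {C : TheoryData.{u, v, 0} 𝒱 ℚ} {K : Type w} [Field K]
    (H : WeilTheoryData.{u, v, w} C K) (N : ∀ X : 𝒱.Obj, ℕ → Submodule ℚ (C.A X)) (J : ℕ∞)
    (S : 𝒱.Obj → Prop) (F : ∀ X : 𝒱.Obj, ℕ → ℕ → Submodule ℚ (C.A X)) : Prop where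
  anti : ∀ X, S X → ∀ j ν : ℕ, (j : ℕ∞) ≤ J → F X j (ν + 1) ≤ F X j ν
  zero : ∀ X, S X → ∀ j : ℕ, (j : ℕ∞) ≤ J → ∀ z : C.A X, z ∈ F X j 0 ↔ C.Deg j z
  one : ∀ X, S X → ∀ j : ℕ, (j : ℕ∞) ≤ J → ∀ z : C.A X,
    z ∈ F X j 1 ↔ C.Deg j z ∧ H.cl z = 0
  two : ∀ X, S X → ∀ j : ℕ, (j : ℕ∞) ≤ J → F X j 2 = N X j
  top : ∀ X, S X → ∀ j : ℕ, (j : ℕ∞) ≤ J → F X j (j + 1) = ⊥
  stable : ∀ X Y, S X → S Y → ∀ j i ν : ℕ, (j : ℕ∞) ≤ J → (i : ℕ∞) ≤ J →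
    ∀ Γ : C.A (X.prod Y), C.Deg (X.dim + i - j) Γ → ∀ z ∈ F X j ν, C.act Γ z ∈ F Y i ν
  shift : ∀ X Y, S X → S Y → ∀ j i ν : ℕ, (j : ℕ∞) ≤ J → (i : ℕ∞) ≤ J →
    ∀ Γ : C.A (X.prod Y), C.Deg (X.dim + i - j) Γ → Kills H Γ (2 * j - ν) →
      ∀ z ∈ F X j ν, C.act Γ z ∈ F Y i (ν + 1)

end Pool.Agent.Hx18.BB
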