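import Pool.Agent.Hx18.BB.Dec
import Pool.Agent.Hx18.BB.Defs

/-!
# The Bloch-Beilinson filtration on the motives generated by curves and surfaces
-/

set_option autoImplicit false

open CategoryTheory AlgebraicGeometry

universe u v w

namespace Pool.Agent.Hx18.BB

open Pool.Agent.H914 Pool.Agent.H914.VarClass Pool.Agent.H914.VarClass.Obj Pool.Agent.W492.BB
  Pool.Agent.W550.Corr Pool.Agent.TH133 Pool.Agent.Y148.BB

set_option linter.unusedSectionVars false
set_option linter.unusedVariables false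

variable {k : Type u} [Field k] {𝒱 : VarClass k}

variable {C : TheoryData.{u, v, 0} 𝒱 ℚ} [hC : IsChowProj C] {K : Type w} [Field K]
  {H : WeilTheoryData.{u, v, w} C K} [hH : IsWeilProj H] {X Y Z W T P R V S : 𝒱.Obj}
  {Q : ∀ S : 𝒱.Obj, C.A (S.prod S) → Prop} {N : ∀ X : 𝒱.Obj, ℕ → Submodule ℚ (C.A X)}
  {D J E : ℕ∞}

/-- The class `z` of codimension `j` on `X` passes the tests defining the `ν`-th step of the
filtration. -/
def Tests (Q : ∀ S : 𝒱.Obj, C.A (S.prod S) → Prop) (D J : ℕ∞) (X : 𝒱.Obj) (j ν : ℕ) (z : C.A X) :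
    Prop :=
  ∀ (n : ℕ) (P : 𝒱.Obj) (p : C.A (P.prod P)), IsPart Q n P p → (n : ℕ∞) ≤ D →
    ∀ i : ℕ, (i : ℕ∞) ≤ J → ∀ Γ : C.A (X.prod P), Γ ∈ C.gr (X.prod P) (X.dim + i - j) →
      2 * i < n + ν → C.act p (C.act Γ z) = 0

/-- The filtration. -/
def fil (H : WeilTheoryData.{u, v, w} C K) (Q : ∀ S : 𝒱.Obj, C.A (S.prod S) → Prop) (D J : ℕ∞)
    (X : 𝒱.Obj) (j ν : ℕ) : Submodule ℚ (C.A X) where
  carrier := {z | z ∈ C.gr X j ∧ (1 ≤ ν → H.cl z = 0) ∧ Tests Q D J X j ν z}
  add_mem' := by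
    rintro y z ⟨h1, h2, h3⟩ ⟨h1', h2', h3'⟩
    refine ⟨Submodule.add_mem _ h1 h1', ?_, ?_⟩
    · intro hν
      rw [map_add, h2 hν, h2' hν, add_zero]
    · intro n P p hp hn i hiJ Γ hΓ hi
      rw [act_map_add, act_map_add, h3 n P p hp hn i hiJ Γ hΓ hi, h3' n P p hp hn i hiJ Γ hΓ hi,
        add_zero]
  zero_mem' := by
    refine ⟨Submodule.zero_mem _, fun _ => map_zero _, ?_⟩
    intro n P p hp hn i hiJ Γ hΓ hi
    rw [C.act_map_zero, C.act_map_zero]
  smul_mem' := by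
    rintro c z ⟨h1, h2, h3⟩
    refine ⟨Submodule.smul_mem _ c h1, ?_, ?_⟩
    · intro hν
      rw [← smul_one_mul, map_mul, h2 hν, mul_zero]
    · intro n P p hp hn i hiJ Γ hΓ hi
      rw [act_map_smul, act_map_smul, h3 n P p hp hn i hiJ Γ hΓ hi, smul_zero]

include hC hH

omit hH in
/-- The decomposition of a class given by a decomposition of the diagonal. -/
lemma dec_principle (hX : dg C X ∈ thr C Q D X) {j : ℕ} {z : C.A X} (hz : z ∈ C.gr X j)
    (M : Submodule ℚ (C.A X))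
    (h1 : ∀ (n : ℕ) (P : 𝒱.Obj) (p : C.A (P.prod P)) (i : ℕ) (a : C.A (X.prod P))
      (b : C.A (P.prod X)), IsPart Q n P p → (n : ℕ∞) ≤ D → i ≤ j → i ≤ P.dim →
      a ∈ C.gr (X.prod P) (X.dim + i - j) → b ∈ C.gr (P.prod X) (P.dim + j - i) →
      C.act b (C.act p (C.act a z)) ∈ M)
    (h2 : ∀ (i : ℕ) (a b : C.A X), a ∈ C.gr X ((X.dim : ℤ) - i) → b ∈ C.gr X i →
      C.act (C.ext a b) z ∈ M) : z ∈ M := by
  have h : thr C Q D X ≤ M.comap ((actB C (X := X) (Y := X)).flip z) := by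
    rw [thr, Submodule.span_le]
    rintro Γ (⟨n, P, p, c, a, b, hp, hn, ha, hb, rfl⟩ | ⟨i, a, b, ha, hb, rfl⟩)
    · change C.act (C.comp a (C.comp p b)) z ∈ M
      rw [C.act_comp, C.act_comp]
      have h3 : C.act a z ∈ C.gr P ((j : ℤ) - c) := act_memZ ha hz (by ring)
      rcases lt_or_ge j c with hjc | hjc
      · rw [C.gr_neg P _ (by omega)] at h3
        rw [(Submodule.mem_bot ℚ).1 h3, C.act_map_zero, C.act_map_zero]
        exact Submodule.zero_mem _
      · rcases lt_or_ge P.dim (j - c) with hd | hd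
        · rw [hC.gr_top P _ _ h3 (by omega), C.act_map_zero, C.act_map_zero]
          exact Submodule.zero_mem _
        · refine h1 n P p (j - c) a b hp hn (by omega) hd (mem_of_eq ha ?_) (mem_of_eq hb ?_)
          · push_cast [Nat.cast_sub hjc]; ring
          · push_cast [Nat.cast_sub hjc]; ring
    · exact h2 i a b ha hb
  have h3 := h hX
  rw [Submodule.mem_comap] at h3
  change C.act (dg C X) z ∈ M at h3
  rwa [act_dg C] at h3

lemma act_dec {j : ℕ} {z : C.A X} (hz : z ∈ C.gr X j) (hcl : H.cl z = 0) (i : ℕ) (a b : C.A X)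
    (ha : a ∈ C.gr X ((X.dim : ℤ) - i)) : C.act (C.ext a b) z = 0 := by
  have h1 : a * z ∈ C.gr X ((X.dim : ℤ) - i + j) := C.mul_mem ha hz
  have h2 : HasDegree C (a * z) 0 := by
    by_cases hij : i = j
    · subst hij
      refine hasDegree_zero_of_cl H (mem_of_eq h1 (by ring)) ?_
      rw [map_mul, hcl, mul_zero]
    · exact hasDegree_of_ne h1 (by omega)
  rw [act_ext' h2, zero_smul]

lemma act_hom {Γ : C.A (X.prod Y)} {z : C.A X} (h : H.cl z = 0) : H.cl (C.act Γ z) = 0 := by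
  rw [cl_act, h]
  exact map_zero (H.actL (H.cl Γ))

/-- The hypotheses. -/
structure Hyp (H : WeilTheoryData.{u, v, w} C K) (Q : ∀ S : 𝒱.Obj, C.A (S.prod S) → Prop)
    (N : ∀ X : 𝒱.Obj, ℕ → Submodule ℚ (C.A X)) (D J E : ℕ∞) : Prop where
  kernel : IsAbelJacobiKernel H N
  trans : ∀ S q, Q S q → IsTrans H S q
  van : ∀ (n : ℕ) (P : 𝒱.Obj) (p : C.A (P.prod P)), IsPart Q n P p → Van H N E n P p
  bound : ∀ n i : ℕ, (n : ℕ∞) ≤ D → (i : ℕ∞) ≤ J → i ≤ n → (i : ℕ∞) ≤ E
  bound' : ∀ m n t l ν : ℕ, (m : ℕ∞) ≤ D → (n : ℕ∞) ≤ D → (t : ℕ∞) ≤ J → (l : ℕ∞) ≤ J → 2 ≤ ν →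
    2 * l = n + ν → m + ν ≤ 2 * t → t ≤ m → ((m + l - t : ℕ) : ℕ∞) ≤ E

lemma Hyp.zero (h : Hyp H Q N D J E) {j : ℕ} {z : C.A X} (hz : z ∈ C.gr X j) :
    z ∈ fil H Q D J X j 0 := by
  refine ⟨hz, fun h => absurd h (by norm_num), ?_⟩
  intro n P p hp hn i hiJ Γ hΓ hi
  have hP := isPure_part h.trans hp
  have h1 : C.act Γ z ∈ C.gr P i := act_memZ hΓ hz (by ring)
  refine (h.van n P p hp).low i (h.bound n i hn hiJ (by omega)) (by omega) _
    (act_mem00 (H := H) hP.deg h1) ?_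
  rw [← C.act_comp, hP.idem]

lemma Hyp.one (h : Hyp H Q N D J E) {j : ℕ} {z : C.A X} (hz : z ∈ C.gr X j) (hcl : H.cl z = 0) :
    z ∈ fil H Q D J X j 1 := by
  refine ⟨hz, fun _ => hcl, ?_⟩
  intro n P p hp hn i hiJ Γ hΓ hi
  have hP := isPure_part h.trans hp
  have h1 : C.act Γ z ∈ C.gr P i := act_memZ hΓ hz (by ring)
  have h2 : C.act p (C.act Γ z) ∈ C.gr P i := act_mem00 (H := H) hP.deg h1
  have h3 : C.act p (C.act p (C.act Γ z)) = C.act p (C.act Γ z) := by
    rw [← C.act_comp, hP.idem]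
  have hE := h.bound n i hn hiJ (by omega)
  rcases lt_or_eq_of_le (by omega : 2 * i ≤ n) with h4 | h4
  · exact (h.van n P p hp).low i hE h4 _ h2 h3
  · exact (h.van n P p hp).mid i hE h4 _ h2 h3 (act_hom (act_hom hcl))

lemma Hyp.two_ge (h : Hyp H Q N D J E) {j : ℕ} {z : C.A X} (hzN : z ∈ N X j) :
    z ∈ fil H Q D J X j 2 := by
  obtain ⟨hz, hcl⟩ := h.kernel.deg X j z hzN
  refine ⟨hz, fun _ => hcl, ?_⟩
  intro n P p hp hn i hiJ Γ hΓ hi
  have hP := isPure_part h.trans hp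
  have hpos := IsPart.pos hp
  have h1 : C.act Γ z ∈ C.gr P i := act_memZ hΓ hz (by ring)
  have h2 : C.act p (C.act Γ z) ∈ C.gr P i := act_mem00 (H := H) hP.deg h1
  have h3 : C.act p (C.act p (C.act Γ z)) = C.act p (C.act Γ z) := by
    rw [← C.act_comp, hP.idem]
  have hE : (i : ℕ∞) ≤ E := h.bound n i hn hiJ (by omega)
  rcases lt_trichotomy (2 * i) n with h4 | h4 | h4
  · exact (h.van n P p hp).low i hE h4 _ h2 h3
  · exact (h.van n P p hp).mid i hE h4 _ h2 h3 (act_hom (act_hom hcl))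
  · refine (h.van n P p hp).high i hE (by omega) _ ?_ h3
    refine h.kernel.stable P P i i p (mem_of_eq hP.deg (by ring)) _ ?_
    exact h.kernel.stable X P j i Γ hΓ z hzN

lemma Hyp.two (h : Hyp H Q N D J E) (hX : dg C X ∈ thr C Q D X) (j : ℕ) (hj : (j : ℕ∞) ≤ J) :
    fil H Q D J X j 2 = N X j := by
  apply le_antisymm
  · rintro z ⟨hz, hcl, ht⟩
    have hcl := hcl one_le_two
    refine dec_principle hX hz _ ?_ ?_
    · intro n P p i a b hp hn hij _ ha hb
      rcases lt_or_ge (2 * i) (n + 2) with h1 | h1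
      · rw [ht n P p hp hn i ((Nat.cast_le.2 hij).trans hj) a ha h1, C.act_map_zero]
        exact Submodule.zero_mem _
      · have hP := isPure_part h.trans hp
        have h2 : C.act a z ∈ C.gr P i := act_memZ ha hz (by ring)
        rw [← C.act_comp]
        refine h.kernel.kills P X i j (C.comp p b) ?_ ?_ _ h2 (act_hom hcl)
        · exact comp_memZ hP.deg hb (by ring)
        · intro x hx
          rw [actH_comp, hP.kills _ (by omega) x hx]
          exact map_zero (H.actL (H.cl b))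
    · intro i a b ha hb
      rw [act_dec hz hcl i a b ha]
      exact Submodule.zero_mem _
  · intro z hzN
    exact h.two_ge hzN

lemma Hyp.top (h : Hyp H Q N D J E) (hX : dg C X ∈ thr C Q D X) (j : ℕ) (hj : (j : ℕ∞) ≤ J) :
    fil H Q D J X j (j + 1) = ⊥ := by
  rw [eq_bot_iff]
  rintro z ⟨hz, hcl, ht⟩
  have hcl := hcl (by omega)
  refine dec_principle hX hz _ ?_ ?_
  · intro n P p i a b hp hn hij hid ha hb
    rw [Submodule.mem_bot]
    have hP := isPure_part h.trans hp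
    have hd := hP.dim_eq
    rw [ht n P p hp hn i ((Nat.cast_le.2 hij).trans hj) a ha (by omega), C.act_map_zero]
  · intro i a b ha hb
    rw [Submodule.mem_bot]
    exact act_dec hz hcl i a b ha

omit hH in
lemma tests_act {j i ν : ℕ} {Γ : C.A (X.prod Y)} (hΓ : Γ ∈ C.gr (X.prod Y) (X.dim + i - j))
    {z : C.A X} (ht : Tests Q D J X j ν z) : Tests Q D J Y i ν (C.act Γ z) := by
  intro n P p hp hn l hlJ Θ hΘ hl
  rw [← C.act_comp Γ Θ]
  exact ht n P p hp hn l hlJ (C.comp Γ Θ) (comp_memZ hΓ hΘ (by ring)) hl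

lemma fil_stable {j i ν : ℕ} {Γ : C.A (X.prod Y)}
    (hΓ : Γ ∈ C.gr (X.prod Y) (X.dim + i - j)) {z : C.A X} (hz : z ∈ fil H Q D J X j ν) :
    C.act Γ z ∈ fil H Q D J Y i ν := by
  obtain ⟨h1, h2, h3⟩ := hz
  exact ⟨act_memZ hΓ h1 (by ring), fun hν => act_hom (h2 hν), tests_act hΓ h3⟩

/-- The vanishing of correspondences between parts. -/
lemma Hyp.corr_zero (h : Hyp H Q N D J E) {n m : ℕ} {p : C.A (P.prod P)} {r : C.A (R.prod R)}
    (hp : IsPart Q n P p) (hr : IsPart Q m R r) {e : ℕ} (hE : (e : ℕ∞) ≤ E)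
    {Ξ : C.A (P.prod R)} (hΞ : Ξ ∈ C.gr (P.prod R) e) (h1 : C.comp p Ξ = Ξ)
    (h2 : C.comp Ξ r = Ξ) (he : 2 * e < n + m ∨ (2 * e = n + m ∧ H.cl Ξ = 0)) : Ξ = 0 := by
  obtain ⟨R', r', hR', hs⟩ := part_prod h.trans hp hr
  have hV := Van.of_summand h.kernel hs (h.van _ _ _ hR')
  have hP := isPure_part h.trans hp
  have h3 := hP.fix_of h1 h2
  rcases he with he | ⟨he, hcl⟩
  · exact hV.low e hE he Ξ hΞ h3
  · exact hV.mid e hE he Ξ hΞ h3 hcl

lemma Hyp.shift (h : Hyp H Q N D J E) (hX : dg C X ∈ thr C Q D X) {j i ν : ℕ}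
    (hj : (j : ℕ∞) ≤ J) {Γ : C.A (X.prod Y)}
    (hΓ : Γ ∈ C.gr (X.prod Y) (X.dim + i - j)) (hk : Kills H Γ (2 * j - ν)) {z : C.A X}
    (hz : z ∈ fil H Q D J X j ν) : C.act Γ z ∈ fil H Q D J Y i (ν + 1) := by
  obtain ⟨h1, h2, h3⟩ := hz
  have hcl : H.cl (C.act Γ z) = 0 := by
    rcases Nat.eq_zero_or_pos ν with hν | hν
    · subst hν
      rw [cl_act]
      exact hk _ (by simpa using H.cl_mem h1)
    · exact act_hom (h2 hν)
  have hd : C.act Γ z ∈ C.gr Y i := act_memZ hΓ h1 (by ring)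
  rcases Nat.eq_zero_or_pos ν with hν | hν
  · subst hν
    exact h.one hd hcl
  have hzcl := h2 hν
  rcases lt_or_eq_of_le (Nat.succ_le_of_lt hν) with hν2 | hν2
  swap
  · obtain rfl : ν = 1 := hν2.symm
    exact h.two_ge (h.kernel.kills X Y j i Γ hΓ (by simpa using hk) z h1 hzcl)
  refine ⟨hd, fun _ => hcl, ?_⟩
  intro n P p hp hn l hlJ Θ hΘ hl
  rcases lt_or_eq_of_le (by omega : 2 * l ≤ n + ν) with hl | hl
  · exact tests_act hΓ h3 n P p hp hn l hlJ Θ hΘ hl
  have hP := isPure_part h.trans hp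
  rw [← C.act_comp, ← C.act_comp]
  set Ψ := C.comp Γ (C.comp Θ p) with hΨ
  have hΨd : Ψ ∈ C.gr (X.prod P) (X.dim + l - j) :=
    comp_memZ hΓ (comp_memZ hΘ hP.deg rfl) (by ring)
  have hΨp : C.comp Ψ p = Ψ := by rw [hΨ, comp_assoc, comp_assoc, hP.idem]
  have key : z ∈ LinearMap.ker (C.actL Ψ) := by
    refine dec_principle hX h1 _ ?_ ?_
    · intro m R r t a b hr hm htj htd ha hb
      rw [LinearMap.mem_ker, TheoryData.actL_apply]
      have hR := isPure_part h.trans hr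
      have hdim := hR.dim_eq
      have htJ : (t : ℕ∞) ≤ J := (Nat.cast_le.2 htj).trans hj
      rcases lt_or_ge (2 * t) (m + ν) with h4 | h4
      · rw [h3 m R r hr hm t htJ a ha h4, C.act_map_zero, C.act_map_zero]
      · rw [← C.act_comp, ← C.act_comp]
        have h5 : C.comp r (C.comp b Ψ) = 0 := by
          have h6 : C.comp r (C.comp b Ψ) ∈ C.gr (R.prod P) ((m + l - t : ℕ) : ℤ) := by
            refine comp_memZ hR.deg (comp_memZ hb hΨd rfl) ?_
            rw [hdim]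
            push_cast [Nat.cast_sub (show t ≤ m + l by omega)]
            ring
          refine h.corr_zero hr hp (h.bound' m n t l ν hm hn htJ hlJ hν2 hl h4 (by omega)) h6
            ?_ ?_ ?_
          · rw [← comp_assoc, hR.idem]
          · rw [comp_assoc, comp_assoc, hΨp]
          · rcases lt_or_eq_of_le h4 with h7 | h7
            · left; omega
            · right
              refine ⟨by omega, hom_zero_of_act H fun x => ?_⟩
              refine act_eq_zero_of_kills H _ (fun q x hx => ?_) x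
              rw [actH_comp]
              by_cases hq : q = m
              · subst hq
                rw [actH_comp, hΨ, actH_comp]
                have h8 : H.act (H.cl b) (H.act (H.cl r) x) ∈ H.gr X (2 * j - ν) := by
                  have h9 : H.act (H.cl r) x ∈ H.gr R m := by
                    have := actH_mem H (e := 0) (Γ := r) (mem_of_eq hR.deg (by ring)) hx
                    simpa using this
                  have h10 := actH_mem H (e := (j : ℤ) - t) (Γ := b)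
                    (mem_of_eq hb (by ring)) h9
                  rwa [show (m : ℤ) + 2 * ((j : ℤ) - t) = 2 * j - ν by omega] at h10
                rw [hk _ h8]
                exact map_zero (H.actL (H.cl (C.comp Θ p)))
              · rw [hR.kills q hq x hx]
                exact map_zero (H.actL (H.cl (C.comp b Ψ)))
        rw [h5, C.act_zero]
    · intro t a b ha hb
      rw [act_dec h1 hzcl t a b ha]
      exact Submodule.zero_mem _
  exact LinearMap.mem_ker.1 key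

lemma fil_anti (j ν : ℕ) : fil H Q D J X j (ν + 1) ≤ fil H Q D J X j ν := by
  rintro z ⟨h1, h2, h3⟩
  refine ⟨h1, fun _ => h2 (by omega), ?_⟩
  intro n P p hp hn i hiJ Γ hΓ hi
  exact h3 n P p hp hn i hiJ Γ hΓ (by omega)

/-- **Existence.** -/
theorem Hyp.isBB (h : Hyp H Q N D J E) {S : 𝒱.Obj → Prop}
    (hS : ∀ X, S X → dg C X ∈ thr C Q D X) :
    IsBlochBeilinsonUpTo H N J S (fil H Q D J) where
  anti X _ j ν _ := fil_anti j ν
  zero X _ j _ z := ⟨fun hz => hz.1, fun hz => h.zero hz⟩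
  one X _ j _ z := ⟨fun hz => ⟨hz.1, hz.2.1 (le_refl 1)⟩, fun hz => h.one hz.1 hz.2⟩
  two X hX j hj := h.two (hS X hX) j hj
  top X hX j hj := h.top (hS X hX) j hj
  stable X Y _ _ j i ν _ _ Γ hΓ z hz := fil_stable hΓ hz
  shift X Y hX _ j i ν hj _ Γ hΓ hk z hz := h.shift (hS X hX) hj hΓ hk hz

omit hH in
lemma prod_of_part {n : ℕ} {p : C.A (P.prod P)} (h : IsPart Q n P p) : IsProd Q P := by
  induction h with
  | factor n T r hr =>
    cases hr with
    | curve T o hT ho hd => exact IsProd.curve T hT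
    | surface S q h => exact IsProd.surface _ _ h
  | prod n m P T p r hp hr ih =>
    cases hr with
    | curve T o hT ho hd => exact IsProd.prod P T ih (IsProd.curve T hT)
    | surface S q h => exact IsProd.prod P _ ih (IsProd.surface _ _ h)

omit hH in
lemma prim_of_part {n : ℕ} {p : C.A (P.prod P)} (h : IsPart Q n P p) : IsPrim Q n P p := by
  induction h with
  | factor n T r hr =>
    cases hr with
    | curve T o hT ho hd => exact IsPrim.curve T o hT ho (degreeOne_iff.2 hd)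
    | surface S q h => exact IsPrim.surface _ _ h
  | prod n m P T p r hp hr ih =>
    cases hr with
    | curve T o hT ho hd =>
      exact IsPrim.prod n 1 P T p _ ih (IsPrim.curve T o hT ho (degreeOne_iff.2 hd))
    | surface S q h => exact IsPrim.prod n 2 P _ p _ ih (IsPrim.surface _ _ h)

omit hH in
lemma prod_of_prim {n : ℕ} {p : C.A (P.prod P)} (h : IsPrim Q n P p) : IsProd Q P := by
  induction h with
  | curve T o hT ho hd => exact IsProd.curve T hT
  | surface S q h => exact IsProd.surface S q h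
  | prod n m P R p r hp hr ih ih' => exact IsProd.prod P R ih ih'

lemma pure_of_prim (hQ : ∀ S q, Q S q → IsTrans H S q) {n : ℕ} {p : C.A (P.prod P)}
    (h : IsPrim Q n P p) : IsPure H n P p := by
  induction h with
  | curve T o hT ho hd => exact isPure_curve hT ho (degreeOne_iff.1 hd)
  | surface S q h => exact isPure_surface (hQ S q h)
  | prod n m P R p r hp hr ih ih' => exact ih.tens ih'

omit hH in
lemma gen_self {d : ℕ∞} (h : IsProd Q P) (hd : (P.dim : ℕ∞) ≤ d) : Gen C Q d P :=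
  ⟨P, ⟨h, hd⟩, dg C P, dg C P, dg_mem C P, dg_mem C P, comp_dg C _⟩

section unique

variable {S : 𝒱.Obj → Prop} {F : ∀ X : 𝒱.Obj, ℕ → ℕ → Submodule ℚ (C.A X)}

omit hC hH in
lemma bb_anti (hF : IsBlochBeilinsonUpTo H N J S F) (hX : S X) {j : ℕ} (hj : (j : ℕ∞) ≤ J)
    {m n : ℕ} (h : m ≤ n) : F X j n ≤ F X j m := by
  induction n, h using Nat.le_induction with
  | base => exact le_refl _
  | succ n _ ih => exact (hF.anti X hX j n hj).trans ih

/-- Components of too large weight vanish. -/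
lemma bb_zero (hF : IsBlochBeilinsonUpTo H N J S F) (hS : S P) {n : ℕ} {p : C.A (P.prod P)}
    (hp : IsPure H n P p) {i ν : ℕ} (hi : (i : ℕ∞) ≤ J) (h : 2 * i < n + ν) {y : C.A P}
    (hy : y ∈ F P i ν) (hpy : C.act p y = y) : y = 0 := by
  have key : ∀ m : ℕ, y ∈ F P i (ν + m) := by
    intro m
    induction m with
    | zero => exact hy
    | succ m ih =>
      rw [← hpy]
      refine hF.shift P P hS hS i i (ν + m) hi hi p (mem_of_eq hp.deg (by ring)) ?_ y ih
      intro a ha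
      refine hp.kills _ ?_ a ha
      push_cast
      omega
  have h1 := bb_anti hF hS hi (show i + 1 ≤ ν + (i + 1) by omega) (key (i + 1))
  rw [hF.top P hS i hi] at h1
  exact (Submodule.mem_bot ℚ).1 h1

/-- Components of small weight lie in the `ν`-th step. -/
lemma bb_mem (hF : IsBlochBeilinsonUpTo H N J S F) (hS : S P) {n : ℕ} {p : C.A (P.prod P)}
    (hp : IsPure H n P p) {i : ℕ} (hi : (i : ℕ∞) ≤ J) {y : C.A P} (hy : y ∈ C.gr P i)
    (hpy : C.act p y = y) : ∀ ν : ℕ, n + ν ≤ 2 * i → y ∈ F P i ν := by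
  intro ν
  induction ν with
  | zero => intro _; exact (hF.zero P hS i hi y).2 hy
  | succ ν ih =>
    intro h
    rw [← hpy]
    refine hF.shift P P hS hS i i ν hi hi p (mem_of_eq hp.deg (by ring)) ?_ y (ih (by omega))
    intro a ha
    exact hp.kills _ (by omega) a ha

/-- **Uniqueness.** -/
theorem bb_eq_fil (hF : IsBlochBeilinsonUpTo H N J S F)
    (hQ : ∀ S q, Q S q → IsTrans H S q)
    (hP : ∀ (n : ℕ) (P : 𝒱.Obj) (p : C.A (P.prod P)), IsPart Q n P p → (n : ℕ∞) ≤ D → S P)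
    (hX : S X) (hdg : dg C X ∈ thr C Q D X) {j : ℕ} (hj : (j : ℕ∞) ≤ J) (ν : ℕ) :
    F X j ν = fil H Q D J X j ν := by
  ext z
  constructor
  · intro hz
    have h0 : z ∈ C.gr X j := (hF.zero X hX j hj z).1 (bb_anti hF hX hj (Nat.zero_le ν) hz)
    refine ⟨h0, fun h => ((hF.one X hX j hj z).1 (bb_anti hF hX hj h hz)).2, ?_⟩
    intro n P p hp hn i hiJ Γ hΓ hi
    have hpure := isPure_part hQ hp
    have hSP := hP n P p hp hn
    refine bb_zero hF hSP hpure hiJ hi ?_ ?_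
    · refine hF.stable P P hSP hSP i i ν hiJ hiJ p (mem_of_eq hpure.deg (by ring)) _ ?_
      exact hF.stable X P hX hSP j i ν hj hiJ Γ hΓ z hz
    · rw [← C.act_comp, hpure.idem]
  · rintro ⟨h0, h1, h2⟩
    rcases Nat.eq_zero_or_pos ν with hν | hν
    · subst hν
      exact (hF.zero X hX j hj z).2 h0
    · refine dec_principle hdg h0 _ ?_ ?_
      · intro n P p i a b hp hn hij _ ha hb
        have hpure := isPure_part hQ hp
        have hSP := hP n P p hp hn
        have hiJ : (i : ℕ∞) ≤ J := (Nat.cast_le.2 hij).trans hj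
        rcases lt_or_ge (2 * i) (n + ν) with h4 | h4
        · rw [h2 n P p hp hn i hiJ a ha h4, C.act_map_zero]
          exact Submodule.zero_mem _
        · refine hF.stable P X hSP hX i j ν hiJ hj b hb _ ?_
          refine bb_mem hF hSP hpure hiJ ?_ ?_ ν h4
          · exact act_mem00 (H := H) hpure.deg (act_memZ ha h0 (by ring))
          · rw [← C.act_comp, hpure.idem]
      · intro i a b ha hb
        rw [act_dec h0 (h1 hν) i a b ha]
        exact Submodule.zero_mem _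

/-- **Necessity.** -/
theorem inj_of_bb (hF : IsBlochBeilinsonUpTo H N J S F) {j : ℕ} (hj : 2 ≤ j)
    (hjJ : (j : ℕ∞) ≤ J) {p : C.A (P.prod P)} (hp : IsPure H (2 * j - 1) P p) (hSP : S P)
    {z : C.A P} (hz : z ∈ N P j) (hpz : C.act p z = z) : z = 0 := by
  rw [← hF.two P hSP j hjJ] at hz
  exact bb_zero hF hSP hp hjJ (by omega) hz hpz

end unique

/-- The hypotheses hold if the Abel-Jacobi maps are injective on the primitive motives. -/
theorem hyp_of_inj (hfib : FibreProperty C) (hN : IsAbelJacobiKernel H N)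
    (hQ : ∀ S q, Q S q → IsTrans H S q) (hinj : Inj Q N E)
    (hb : ∀ n i : ℕ, (n : ℕ∞) ≤ D → (i : ℕ∞) ≤ J → i ≤ n → (i : ℕ∞) ≤ E)
    (hb' : ∀ m n t l ν : ℕ, (m : ℕ∞) ≤ D → (n : ℕ∞) ≤ D → (t : ℕ∞) ≤ J → (l : ℕ∞) ≤ J → 2 ≤ ν →
      2 * l = n + ν → m + ν ≤ 2 * t → t ≤ m → ((m + l - t : ℕ) : ℕ∞) ≤ E) :
    Hyp H Q N D J E where
  kernel := hN
  trans := hQ
  van _ _ _ hp := van_part hfib hN hQ hinj hp
  bound := hb
  bound' := hb'

section statement

variable {N : Family C}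

omit hC hH in
lemma kernel_of (hN : IsAJKernel H N) : IsAbelJacobiKernel H N.N :=
  ⟨hN.deg, hN.stable, hN.kills, hN.abel⟩

omit hC hH in
lemma upTo_of {S : 𝒱.Obj → Prop} {F : Filtration C} (h : IsBB H N J S F) :
    IsBlochBeilinsonUpTo H N.N J S F.F where
  anti X _ j ν _ := F.anti X j ν
  zero := h.zero
  one := h.one
  two X hX j hj := Submodule.ext (h.two X hX j hj)
  top X hX j hj := (Submodule.eq_bot_iff _).2 (h.top X hX j hj)
  stable := h.stable
  shift := h.shift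

/-- The filtration `fil`. -/
def filF (H : WeilTheoryData.{u, v, w} C K) [hH : IsWeilProj H]
    (Q : ∀ S : 𝒱.Obj, C.A (S.prod S) → Prop) (D J : ℕ∞) : Filtration C where
  F := fil H Q D J
  le_gr _ _ _ _ hz := hz.1
  anti _ _ _ := fil_anti _ _

theorem Hyp.isBB' (h : Hyp H Q N.N D J E) : IsBB H N J (Gen C Q D) (filF H Q D J) := by
  have h1 := h.isBB fun X hX => thr_gen h.trans hX
  exact
    { zero := h1.zero
      one := h1.one
      two := fun X hX j hj z => by
        have := h1.two X hX j hj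
        exact (Submodule.ext_iff.1 this) z
      top := fun X hX j hj z hz => (Submodule.eq_bot_iff _).1 (h1.top X hX j hj) z hz
      stable := h1.stable
      shift := h1.shift }

omit hC hH in
lemma inj_of_ajInjective (h : ∀ j : ℕ, 2 ≤ j → (j : ℕ∞) ≤ E → AJInjective Q N j) [IsChowProj C] :
    Inj Q N.N E := by
  intro j hj hjE P p hp z hz hpz
  exact h j hj hjE P p (prim_of_part hp) z hz hpz

/-- **Sufficiency.** -/
theorem bbExists_of (hN : IsAJKernel H N) (hQ : ∀ S q, Q S q → IsTrans H S q)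
    (hfib : FibreTheorem C) (h : ∀ j : ℕ, 2 ≤ j → (j : ℕ∞) ≤ E → AJInjective Q N j)
    (hb : ∀ n i : ℕ, (n : ℕ∞) ≤ D → (i : ℕ∞) ≤ J → i ≤ n → (i : ℕ∞) ≤ E)
    (hb' : ∀ m n t l ν : ℕ, (m : ℕ∞) ≤ D → (n : ℕ∞) ≤ D → (t : ℕ∞) ≤ J → (l : ℕ∞) ≤ J → 2 ≤ ν →
      2 * l = n + ν → m + ν ≤ 2 * t → t ≤ m → ((m + l - t : ℕ) : ℕ∞) ≤ E) :
    BBExists H Q N D J :=
  ⟨_, (hyp_of_inj hfib (kernel_of hN) hQ (inj_of_ajInjective h) hb hb').isBB'⟩

/-- **Necessity.** -/
theorem ajInjective_of (hQ : ∀ S q, Q S q → IsTrans H S q) (h : BBExists H Q N D J) {j : ℕ}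
    (hj : 2 ≤ j) (hjJ : (j : ℕ∞) ≤ J) (hjD : ((2 * j - 1 : ℕ) : ℕ∞) ≤ D) :
    AJInjective Q N j := by
  obtain ⟨F, hF⟩ := h
  intro P p hp z hz hpz
  have hpure := pure_of_prim hQ hp
  refine inj_of_bb (upTo_of hF) hj hjJ hpure (gen_self (prod_of_prim hp) ?_) hz hpz
  rw [hpure.dim_eq]
  exact hjD

/-- **Uniqueness.** -/
theorem bb_unique (hQ : ∀ S q, Q S q → IsTrans H S q) {F F' : Filtration C}
    (hF : IsBB H N J (Gen C Q D) F) (hF' : IsBB H N J (Gen C Q D) F') (hX : Gen C Q D X) {j : ℕ}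
    (hj : (j : ℕ∞) ≤ J) (ν : ℕ) (z : C.A X) : F.Mem j ν z ↔ F'.Mem j ν z := by
  have hP : ∀ (n : ℕ) (P : 𝒱.Obj) (p : C.A (P.prod P)), IsPart Q n P p → (n : ℕ∞) ≤ D →
      Gen C Q D P := by
    intro n P p hp hn
    refine gen_self (prod_of_part hp) ?_
    rw [(isPure_part hQ hp).dim_eq]
    exact hn
  have hdg := thr_gen hQ hX
  have h1 := bb_eq_fil (upTo_of hF) hQ hP hX hdg hj ν
  have h2 := bb_eq_fil (upTo_of hF') hQ hP hX hdg hj ν
  rw [Filtration.Mem, Filtration.Mem, h1, h2]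

end statement

end Pool.Agent.Hx18.BB
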