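import Pool.Agent.Hx18.BB.Van

/-!
# The decomposition of the diagonal of products of curves and surfaces
-/

set_option autoImplicit false

open CategoryTheory AlgebraicGeometry

universe u v w

namespace Pool.Agent.Hx18.BB

open Pool.Agent.H914 Pool.Agent.H914.VarClass Pool.Agent.H914.VarClass.Obj Pool.Agent.W492.BB
  Pool.Agent.W550.Corr Pool.Agent.TH133 Pool.Agent.Y148.BB

set_option linter.unusedSectionVars false

variable {k : Type u} [Field k] {𝒱 : VarClass k}

/-- The correspondence `z` factors through a twist of a part of weight at most `D`. -/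
def ThroughPart (C : TheoryData.{u, v, 0} 𝒱 ℚ) (Q : ∀ S : 𝒱.Obj, C.A (S.prod S) → Prop) (D : ℕ∞)
    {X : 𝒱.Obj} (z : C.A (X.prod X)) : Prop :=
  ∃ (n : ℕ) (P : 𝒱.Obj) (p : C.A (P.prod P)) (c : ℕ) (a : C.A (X.prod P)) (b : C.A (P.prod X)),
    IsPart Q n P p ∧ (n : ℕ∞) ≤ D ∧ C.Deg ((X.dim : ℤ) - c) a ∧ C.Deg ((P.dim : ℤ) + c) b ∧
    z = C.comp a (C.comp p b)

/-- The correspondence `z` is decomposable. -/
def Decomposable (C : TheoryData.{u, v, 0} 𝒱 ℚ) {X : 𝒱.Obj} (z : C.A (X.prod X)) : Prop :=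
  ∃ (i : ℕ) (a b : C.A X), C.Deg ((X.dim : ℤ) - i) a ∧ C.Deg i b ∧ z = C.ext a b

/-- The combinations of correspondences through parts and of decomposable correspondences. -/
noncomputable def thr (C : TheoryData.{u, v, 0} 𝒱 ℚ) (Q : ∀ S : 𝒱.Obj, C.A (S.prod S) → Prop)
    (D : ℕ∞) (X : 𝒱.Obj) : Submodule ℚ (C.A (X.prod X)) :=
  Submodule.span ℚ {z | ThroughPart C Q D z ∨ Decomposable C z}

section chow

variable {C : TheoryData.{u, v, 0} 𝒱 ℚ} [hC : IsChowProj C] {X Y Z W T P R V S : 𝒱.Obj}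
  {Q : ∀ S : 𝒱.Obj, C.A (S.prod S) → Prop} {D : ℕ∞}

lemma thr_mono {D D' : ℕ∞} (h : D ≤ D') (X : 𝒱.Obj) : thr C Q D X ≤ thr C Q D' X := by
  apply Submodule.span_mono
  rintro z (⟨n, P, p, c, a, b, h1, h2, h3⟩ | hz)
  · exact Or.inl ⟨n, P, p, c, a, b, h1, h2.trans h, h3⟩
  · exact Or.inr hz

include hC

lemma comp_memZ {i j l : ℤ} {Γ : C.A (X.prod Y)} {Δ : C.A (Y.prod Z)}
    (hΓ : Γ ∈ C.gr (X.prod Y) i) (hΔ : Δ ∈ C.gr (Y.prod Z) j) (h : l = i + j - Y.dim) :
    C.comp Γ Δ ∈ C.gr (X.prod Z) l := by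
  have h1 := comp_mem C (e := i - X.dim) (e' := j - Y.dim) (Γ := Γ) (Δ := Δ)
    (mem_of_eq hΓ (by ring)) (mem_of_eq hΔ (by ring))
  exact mem_of_eq h1 (by rw [h]; ring)

lemma act_memZ {i j l : ℤ} {Γ : C.A (X.prod Y)} {x : C.A X}
    (hΓ : Γ ∈ C.gr (X.prod Y) i) (hx : x ∈ C.gr X j) (h : l = i + j - X.dim) :
    C.act Γ x ∈ C.gr Y l := by
  have h1 := act_mem' C (e := i - X.dim) (Γ := Γ) (mem_of_eq hΓ (by ring)) hx
  exact mem_of_eq h1 (by rw [h]; ring)

lemma wg_memZ {i l : ℤ} (a : X ⟶ Y) {w : C.A X} (hw : w ∈ C.gr X i) (h : l = i + Y.dim) :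
    wg C a w ∈ C.gr (X.prod Y) l := mem_of_eq (wg_mem a hw) h.symm

/-- Conjugation by correspondences of degree zero. -/
lemma thr_conj {f : C.A (X.prod P)} {g : C.A (P.prod X)} (hf : C.Deg X.dim f)
    (hg : C.Deg P.dim g) {z : C.A (P.prod P)} (hz : z ∈ thr C Q D P) :
    C.comp f (C.comp z g) ∈ thr C Q D X := by
  have h : thr C Q D P ≤ (thr C Q D X).comap ((compL C f) ∘ₗ (compL C).flip g) := by
    rw [thr, Submodule.span_le]
    rintro z (⟨n, R, p, c, a, b, h1, h2, h3, h4, rfl⟩ | ⟨i, a, b, h3, h4, rfl⟩)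
    · change C.comp f (C.comp (C.comp a (C.comp p b)) g) ∈ thr C Q D X
      apply Submodule.subset_span
      refine Or.inl ⟨n, R, p, c, C.comp f a, C.comp b g, h1, h2, ?_, ?_, ?_⟩
      · exact comp_memZ hf h3 (by ring)
      · exact comp_memZ h4 hg (by ring)
      · rw [comp_assoc C f a, comp_assoc C a, comp_assoc C p]
    · change C.comp f (C.comp (C.ext a b) g) ∈ thr C Q D X
      apply Submodule.subset_span
      refine Or.inr ⟨i, C.act (tp C f) a, C.act g b, ?_, ?_, ?_⟩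
      · exact act_memZ (tp_mem C hf) h3 (by ring)
      · exact act_memZ hg h4 (by ring)
      · rw [ext_comp, comp_ext]
  exact h hz

end chow

section weil

variable {C : TheoryData.{u, v, 0} 𝒱 ℚ} [hC : IsChowProj C] {K : Type w} [Field K]
  {H : WeilTheoryData.{u, v, w} C K} [hH : IsWeilProj H] {X Y Z W T P R V S : 𝒱.Obj}
  {Q : ∀ S : 𝒱.Obj, C.A (S.prod S) → Prop}

include hC hH

/-- External products. -/
lemma thr_tens (hQ : ∀ S q, Q S q → IsTrans H S q) {B B' : ℕ} {Γ : C.A (X.prod X)}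
    {Δ : C.A (Y.prod Y)} (hΓ : Γ ∈ thr C Q B X) (hΔ : Δ ∈ thr C Q B' Y) :
    TH133.tens C Γ Δ ∈ thr C Q ((B + B' : ℕ) : ℕ∞) (X.prod Y) := by
  have hdim : ((X.prod Y).dim : ℤ) = X.dim + Y.dim := by rw [dim_prod]; push_cast; ring
  have hBB : ∀ n : ℕ, (n : ℕ∞) ≤ B → (n : ℕ∞) ≤ ((B + B' : ℕ) : ℕ∞) := by
    intro n hn
    have h1 : n ≤ B := by exact_mod_cast hn
    exact_mod_cast (by omega : n ≤ B + B')
  have hBB' : ∀ n : ℕ, (n : ℕ∞) ≤ B' → (n : ℕ∞) ≤ ((B + B' : ℕ) : ℕ∞) := by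
    intro n hn
    have h1 : n ≤ B' := by exact_mod_cast hn
    exact_mod_cast (by omega : n ≤ B + B')
  have key : ∀ Γ : C.A (X.prod X), (ThroughPart C Q B Γ ∨ Decomposable C Γ) →
      ∀ Δ : C.A (Y.prod Y), (ThroughPart C Q B' Δ ∨ Decomposable C Δ) →
      TH133.tens C Γ Δ ∈ thr C Q ((B + B' : ℕ) : ℕ∞) (X.prod Y) := by
    rintro Γ (⟨n, P, p, c, a, b, h1, h2, h3, h4, rfl⟩ | ⟨i, a, b, h3, h4, rfl⟩) Δ
      (⟨n', P', p', c', a', b', h1', h2', h3', h4', rfl⟩ | ⟨i', a', b', h3', h4', rfl⟩)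
    · apply Submodule.subset_span
      have hp := isPure_part hQ h1
      have hp' := isPure_part hQ h1'
      obtain ⟨R, r, hR, f, g, hf, hg, hfg, hfr⟩ := part_prod hQ h1 h1'
      have hdP : ((P.prod P').dim : ℤ) = P.dim + P'.dim := by rw [dim_prod]; push_cast; ring
      refine Or.inl ⟨n + n', R, r, c + c', C.comp (TH133.tens C a a') f,
        C.comp g (TH133.tens C b b'), hR, ?_, ?_, ?_, ?_⟩
      · have h5 : n ≤ B := by exact_mod_cast h2
        have h6 : n' ≤ B' := by exact_mod_cast h2'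
        exact_mod_cast (by omega : n + n' ≤ B + B')
      · refine comp_memZ (tens_mem C h3 h3') hf ?_
        rw [hdim]; push_cast; ring
      · refine comp_memZ hg (tens_mem C h4 h4') ?_
        rw [hdP]; push_cast; ring
      · rw [comp_assoc C _ f, ← comp_assoc C r g, ← comp_assoc C f (C.comp r g),
          ← comp_assoc C f r g, hfr, hfg, tens_comp'', tens_comp'']
    · apply Submodule.subset_span
      refine Or.inl ⟨n, P, p, c + i', C.comp (wg C (fst X Y) (C.pull (snd X Y) a')) a,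
        C.comp b (tp C (wg C (fst X Y) (C.pull (snd X Y) b'))), h1, hBB n h2, ?_, ?_, ?_⟩
      · refine comp_memZ (wg_memZ _ (C.pull_mem _ h3') rfl) h3 ?_
        rw [hdim]; push_cast; ring
      · refine comp_memZ h4 (tp_mem C (wg_memZ _ (C.pull_mem _ h4') rfl)) ?_
        push_cast; ring
      · rw [tens_ext_right]
        simp only [comp_assoc]
    · apply Submodule.subset_span
      refine Or.inl ⟨n', P', p', c' + i, C.comp (wg C (snd X Y) (C.pull (fst X Y) a)) a',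
        C.comp b' (tp C (wg C (snd X Y) (C.pull (fst X Y) b))), h1', hBB' n' h2', ?_, ?_, ?_⟩
      · refine comp_memZ (wg_memZ _ (C.pull_mem _ h3) rfl) h3' ?_
        rw [hdim]; push_cast; ring
      · refine comp_memZ h4' (tp_mem C (wg_memZ _ (C.pull_mem _ h4) rfl)) ?_
        push_cast; ring
      · rw [tens_ext_left]
        simp only [comp_assoc]
    · apply Submodule.subset_span
      refine Or.inr ⟨i + i', C.ext a a', C.ext b b', ?_, ?_, ?_⟩
      · refine mem_of_eq (ext_mem' h3 h3') ?_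
        rw [hdim]; push_cast; ring
      · refine mem_of_eq (ext_mem' h4 h4') ?_
        push_cast; ring
      · rw [tens_ext_ext]
  have h1 : ∀ Δ : C.A (Y.prod Y), (ThroughPart C Q B' Δ ∨ Decomposable C Δ) →
      thr C Q B X ≤ (thr C Q ((B + B' : ℕ) : ℕ∞) (X.prod Y)).comap
        ((tensL (C := C) (X := X) (Y := X) (Z := Y) (W := Y)).flip Δ) := by
    intro Δ hΔ
    rw [thr, Submodule.span_le]
    intro Γ hΓ
    exact key Γ hΓ Δ hΔ
  have h2 : thr C Q B' Y ≤ (thr C Q ((B + B' : ℕ) : ℕ∞) (X.prod Y)).comap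
      (tensL (C := C) (X := X) (Y := X) (Z := Y) (W := Y) Γ) := by
    rw [thr, Submodule.span_le]
    intro Δ hΔ
    exact h1 Δ hΔ hΓ
  exact h2 hΔ

omit hH in
lemma dg_comp_part {n : ℕ} {p : C.A (P.prod P)} (h : IsPart Q n P p) : p ∈ thr C Q n P := by
  apply Submodule.subset_span
  refine Or.inl ⟨n, P, p, 0, dg C P, dg C P, h, le_refl _, ?_, ?_, ?_⟩
  · exact mem_of_eq (dg_mem C P) (by simp)
  · exact mem_of_eq (dg_mem C P) (by simp)
  · rw [comp_dg, dg_comp]

/-- The diagonal of a curve or a surface. -/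
lemma thr_factor (hQ : ∀ S q, Q S q → IsTrans H S q) (h : T.dim = 1 ∨ ∃ q, Q T q) :
    dg C T ∈ thr C Q T.dim T := by
  rcases h with hT | ⟨q, hq⟩
  · obtain ⟨o, ho, hd⟩ := exists_point C T
    have ho' : C.Deg 1 o := by rw [hT] at ho; exact_mod_cast ho
    rw [dg_curve o]
    refine Submodule.add_mem _ (Submodule.add_mem _ ?_ ?_) ?_
    · rw [hT]
      exact dg_comp_part (IsPart.factor 1 T _ (IsFactor.curve T o hT ho' hd))
    · exact Submodule.subset_span (Or.inr ⟨0, o, 1, mem_of_eq ho (by simp),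
        mem_of_eq (C.one_mem T) (by simp), rfl⟩)
    · exact Submodule.subset_span (Or.inr ⟨1, 1, o, mem_of_eq (C.one_mem T) (by rw [hT]; simp),
        mem_of_eq ho (by rw [hT]), rfl⟩)
  · have hS := hQ _ _ hq
    have hdim := hS.dim_eq
    have hpart : IsPart Q 2 T q := IsPart.factor 2 T q (IsFactor.surface T q hq)
    obtain ⟨x, hx, -, -, -, hspan⟩ := hS.diagonal
    have e0 : dg C T = (dg C T - C.ext x 1 - C.ext 1 x - q) + C.ext x 1 + C.ext 1 x + q := by abel
    rw [e0, hdim]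
    refine Submodule.add_mem _ (Submodule.add_mem _ (Submodule.add_mem _ ?_ ?_) ?_)
      (dg_comp_part hpart)
    · refine (Submodule.span_le.2 ?_ : _ ≤ thr C Q (2 : ℕ) T) hspan
      rintro c (⟨a, b, ha, hb, rfl⟩ | ⟨T', o, i, f, g, hT', ho, hd, hi, hf, hg, rfl⟩)
      · exact Submodule.subset_span (Or.inr ⟨1, a, b, mem_of_eq ha (by rw [hdim]; norm_num),
          mem_of_eq hb (by simp), rfl⟩)
      · apply Submodule.subset_span
        refine Or.inl ⟨1, T', oddProj C o, i, f, g, IsPart.factor 1 T' _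
          (IsFactor.curve T' o hT' ho (degreeOne_iff.1 hd)), by exact_mod_cast one_le_two,
          mem_of_eq hf (by rw [hdim]; simp), mem_of_eq hg (by rw [hT']; simp), rfl⟩
    · exact Submodule.subset_span (Or.inr ⟨0, x, 1, mem_of_eq hx (by rw [hdim]; simp),
        mem_of_eq (C.one_mem T) (by simp), rfl⟩)
    · exact Submodule.subset_span (Or.inr ⟨2, 1, x, mem_of_eq (C.one_mem T) (by rw [hdim]; simp),
        mem_of_eq hx (by simp), rfl⟩)

/-- **The decomposition of the diagonal.** -/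
theorem thr_product (hQ : ∀ S q, Q S q → IsTrans H S q)
    (h : IsProd Q P) : dg C P ∈ thr C Q P.dim P := by
  induction h with
  | curve T hT => exact thr_factor hQ (Or.inl hT)
  | surface S q h => exact thr_factor hQ (Or.inr ⟨q, h⟩)
  | prod P T hP hT ih ih' =>
    have h1 := thr_tens hQ ih ih'
    rw [tens_dg] at h1
    rwa [dim_prod]

theorem thr_gen (hQ : ∀ S q, Q S q → IsTrans H S q) {D : ℕ∞} (h : Gen C Q D X) :
    dg C X ∈ thr C Q D X := by
  obtain ⟨P, ⟨hP, hD⟩, f, g, hf, hg, hfg⟩ := h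
  have h1 := thr_conj hf hg (thr_mono hD P (thr_product hQ hP))
  have h2 : C.comp f g = dg C X := hfg
  rwa [dg_comp, h2] at h1

end weil

end Pool.Agent.Hx18.BB
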