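import Pool.Agent.Hx18.BB.Fil

/-!
# Main theorem on motives generated by curves and surfaces
-/

set_option autoImplicit false

open CategoryTheory AlgebraicGeometry

universe u v w

namespace Pool.Agent.Hx18.BB

open Pool.Agent.H914 Pool.Agent.H914.VarClass Pool.Agent.H914.VarClass.Obj Pool.Agent.W492.BB
  Pool.Agent.W550.Corr Pool.Agent.TH133 Pool.Agent.Y148.BB

set_option linter.unusedSectionVars false
set_option linter.unusedVariables false

variable {k : Type u} [Field k] {𝒱 : VarClass k}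

/-- **Main theorem.** -/
theorem main (C : TheoryData.{u, v, 0} 𝒱 ℚ) [IsChowProj C] {K : Type w} [Field K]
    (H : WeilTheoryData.{u, v, w} C K) [IsWeilProj H] (N : Family C) (hN : IsAJKernel H N)
    (Q : ∀ S : 𝒱.Obj, C.A (S.prod S) → Prop) (hQ : ∀ S q, Q S q → IsTrans H S q)
    (hfib : FibreTheorem C) :
    (BBExists H Q N ⊤ ⊤ ↔ ∀ j : ℕ, 2 ≤ j → AJInjective Q N j) ∧
    (∀ J : ℕ, ((∀ j : ℕ, 2 ≤ j → j ≤ 2 * J - 2 → AJInjective Q N j) → BBExists H Q N ⊤ J) ∧
      (BBExists H Q N ⊤ J → ∀ j : ℕ, 2 ≤ j → j ≤ J → AJInjective Q N j)) ∧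
    (∀ d : ℕ, ((∀ j : ℕ, 2 ≤ j → j ≤ d → AJInjective Q N j) → BBExists H Q N d ⊤) ∧
      (BBExists H Q N d ⊤ → ∀ j : ℕ, 2 ≤ j → 2 * j ≤ d + 1 → AJInjective Q N j)) ∧
    (∀ (d J : ℕ∞) (F F' : Filtration C), IsBB H N J (Gen C Q d) F → IsBB H N J (Gen C Q d) F' →
      ∀ X, Gen C Q d X → ∀ j : ℕ, (j : ℕ∞) ≤ J → ∀ (ν : ℕ) (z : C.A X),
        F.Mem j ν z ↔ F'.Mem j ν z) := by
  refine ⟨⟨?_, ?_⟩, ?_, ?_, ?_⟩
  · intro h j hj
    exact ajInjective_of hQ h hj le_top le_top
  · intro h
    exact bbExists_of (E := ⊤) hN hQ hfib (fun j hj _ => h j hj) (fun _ _ _ _ _ => le_top)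
      fun _ _ _ _ _ _ _ _ _ _ _ _ _ => le_top
  · intro J
    constructor
    · intro h
      refine bbExists_of (E := ((max J (2 * J - 2) : ℕ) : ℕ∞)) hN hQ hfib ?_ ?_ ?_
      · intro j hj hjE
        have h1 : j ≤ max J (2 * J - 2) := by exact_mod_cast hjE
        exact h j hj (by omega)
      · intro n i _ hi _
        have h1 : i ≤ J := by exact_mod_cast hi
        exact_mod_cast (by omega : i ≤ max J (2 * J - 2))
      · intro m n t l ν _ _ ht hl hν h1 h2 h3
        have h4 : t ≤ J := by exact_mod_cast ht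
        have h5 : l ≤ J := by exact_mod_cast hl
        exact_mod_cast (by omega : m + l - t ≤ max J (2 * J - 2))
    · intro h j hj hjJ
      exact ajInjective_of hQ h hj (by exact_mod_cast hjJ) le_top
  · intro d
    constructor
    · intro h
      refine bbExists_of (E := (d : ℕ∞)) hN hQ hfib ?_ ?_ ?_
      · intro j hj hjE
        exact h j hj (by exact_mod_cast hjE)
      · intro n i hn _ hi
        have h1 : n ≤ d := by exact_mod_cast hn
        exact_mod_cast (by omega : i ≤ d)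
      · intro m n t l ν hm hn _ _ hν h1 h2 h3
        have h4 : m ≤ d := by exact_mod_cast hm
        have h5 : n ≤ d := by exact_mod_cast hn
        exact_mod_cast (by omega : m + l - t ≤ d)
    · intro h j hj hjd
      exact ajInjective_of hQ h hj le_top (by exact_mod_cast (by omega : 2 * j - 1 ≤ d))
  · intro d J F F' hF hF' X hX j hj ν z
    exact bb_unique hQ hF hF' hX hj ν z

end Pool.Agent.Hx18.BB
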