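import Pool.Agent.TH133.Defs

/-!
# Motives generated by curves and surfaces: definitions
-/

set_option autoImplicit false

open CategoryTheory AlgebraicGeometry

universe u v w

namespace Pool.Agent.Hx18.BB

open Pool.Agent.H914 Pool.Agent.H914.VarClass Pool.Agent.H914.VarClass.Obj Pool.Agent.W492.BB
  Pool.Agent.W550.Corr Pool.Agent.TH133

noncomputable section

variable {k : Type u} [Field k] {𝒱 : VarClass k}

section basic

variable {C : TheoryData.{u, v, 0} 𝒱 ℚ} {X Y Z W S : 𝒱.Obj}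

/-- The class of the diagonal of `X`. -/
def diag (C : TheoryData.{u, v, 0} 𝒱 ℚ) (X : 𝒱.Obj) : C.A (X.prod X) :=
  C.down (Obj.lift (𝟙 X) (𝟙 X)) 1

/-- The composition of correspondences: `(cmp Γ Δ)_* = Δ_* ∘ Γ_*`. -/
def cmp (Γ : C.A (X.prod Y)) (Δ : C.A (Y.prod Z)) : C.A (X.prod Z) :=
  C.down (prodMap (fst X Y) (𝟙 Z))
    (C.mul (C.up (prodMap (snd X Y) (𝟙 Z)) Δ) (C.up (fst (X.prod Y) Z) Γ))

/-- The external product of classes. -/
def box (a : C.A X) (b : C.A Y) : C.A (X.prod Y) := C.mul (C.up (fst X Y) a) (C.up (snd X Y) b)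

/-- The external product of correspondences. -/
def boxCorr (Γ : C.A (X.prod Y)) (Δ : C.A (Z.prod W)) : C.A ((X.prod Z).prod (Y.prod W)) :=
  C.mul (C.up (prodMap (fst X Z) (fst Y W)) Γ) (C.up (prodMap (snd X Z) (snd Y W)) Δ)

/-- The transpose of a correspondence. -/
def transp (Γ : C.A (X.prod Y)) : C.A (Y.prod X) := C.up (Obj.lift (snd Y X) (fst Y X)) Γ

/-- The zero-cycle `o` has degree one. -/
def DegreeOne (o : C.A X) : Prop :=
  ∀ Y : 𝒱.Obj, C.down (snd X Y) (C.up (fst X Y) o) = 1 ∧ C.down (fst Y X) (C.up (snd Y X) o) = 1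

/-- The correspondence `Δ - o × T - T × o`: for a curve `T` and a zero-cycle `o` of degree one on
it, the projector on `h^1(T)`. -/
def oddPart (o : C.A X) : C.A (X.prod X) := diag C X - box o 1 - box 1 o

/-- The class `z` is a linear combination of classes with the property `p`. -/
def InSpan (p : C.A X → Prop) (z : C.A X) : Prop := z ∈ Submodule.span ℚ {c | p c}

/-- Over an uncountable algebraically closed field: a class on `X × T`, `T` a curve, whose
restrictions to all the fibres `X × t` vanish, is a sum of classes `x × t` (Bloch, Srinivas). -/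
def FibreTheorem (C : TheoryData.{u, v, 0} 𝒱 ℚ) : Prop :=
  ∀ (X T : 𝒱.Obj) (j : ℤ) (z : C.A (X.prod T)), T.dim = 1 → C.Deg j z →
    (∀ t : C.A T, C.Deg 1 t → C.down (fst X T) (C.mul z (C.up (snd X T) t)) = 0) →
    InSpan (fun c => ∃ (x : C.A X) (t : C.A T), C.Deg (j - 1) x ∧ C.Deg 1 t ∧ c = box x t) z

/-- The analogous property for a pencil of curves through the point `x` of the surface `S`: a class
on `P × S` whose restrictions to `P × T` vanish, for all the curves `T ⟶ S` through `x`, is a sum of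
push-forwards of classes on `P × T`, `T ⟶ S` curves (the normalisations of the components of members
of the pencil). -/
def PencilTheorem (x : C.A S) : Prop :=
  ∀ (P : 𝒱.Obj) (j : ℤ) (z : C.A (P.prod S)), C.Deg j z →
    (∀ (T : 𝒱.Obj) (i : T ⟶ S) (o : C.A T), T.dim = 1 → C.Deg 1 o → DegreeOne o →
      C.down i o = x → C.up (prodMap (𝟙 P) i) z = 0) →
    InSpan (fun c => ∃ (T : 𝒱.Obj) (i : T ⟶ S) (w : C.A (P.prod T)), T.dim = 1 ∧
      C.Deg (j - 1) w ∧ c = C.down (prodMap (𝟙 P) i) w) z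

/-- The motive of `X` is a direct summand of the motive of a variety with the property `S`. -/
def IsSummandOf (C : TheoryData.{u, v, 0} 𝒱 ℚ) (S : 𝒱.Obj → Prop) (X : 𝒱.Obj) : Prop :=
  ∃ P : 𝒱.Obj, S P ∧ ∃ (f : C.A (X.prod P)) (g : C.A (P.prod X)),
    C.Deg X.dim f ∧ C.Deg P.dim g ∧ cmp f g = diag C X

/-- A product of curves and of surfaces `S` such that `Q S q` for some `q`. -/
inductive IsProd (Q : ∀ S : 𝒱.Obj, C.A (S.prod S) → Prop) : 𝒱.Obj → Prop
  | curve (T : 𝒱.Obj) (hT : T.dim = 1) : IsProd Q T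
  | surface (S : 𝒱.Obj) (q : C.A (S.prod S)) (h : Q S q) : IsProd Q S
  | prod (P R : 𝒱.Obj) (hP : IsProd Q P) (hR : IsProd Q R) : IsProd Q (P.prod R)

/-- `IsPrim Q n P p`: the motive `(P, p)` is a product, in any order, of motives `h^1(T)` of curves
and of motives `(S, q)` with `Q S q`, `S` a surface, and `n` is the number of curves plus twice the
number of surfaces. -/
inductive IsPrim (Q : ∀ S : 𝒱.Obj, C.A (S.prod S) → Prop) :
    ℕ → (P : 𝒱.Obj) → C.A (P.prod P) → Prop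
  | curve (T : 𝒱.Obj) (o : C.A T) (hT : T.dim = 1) (ho : C.Deg 1 o) (hd : DegreeOne o) :
      IsPrim Q 1 T (oddPart o)
  | surface (S : 𝒱.Obj) (q : C.A (S.prod S)) (h : Q S q) : IsPrim Q 2 S q
  | prod (n m : ℕ) (P R : 𝒱.Obj) (p : C.A (P.prod P)) (r : C.A (R.prod R)) (hp : IsPrim Q n P p)
      (hr : IsPrim Q m R r) : IsPrim Q (n + m) (P.prod R) (boxCorr p r)

/-- The varieties whose motives are direct summands of motives of products, of dimension at most
`d`, of curves and of surfaces `S` with `Q S q` for some `q`. -/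
def Gen (C : TheoryData.{u, v, 0} 𝒱 ℚ) (Q : ∀ S : 𝒱.Obj, C.A (S.prod S) → Prop) (d : ℕ∞)
    (X : 𝒱.Obj) : Prop :=
  IsSummandOf C (fun P => IsProd Q P ∧ (P.dim : ℕ∞) ≤ d) X

/-- A family of subspaces of the Chow groups of all codimensions. -/
structure Family (C : TheoryData.{u, v, 0} 𝒱 ℚ) where
  /-- the subspace of `CH^j(X)` -/
  N : ∀ X : 𝒱.Obj, ℕ → Submodule ℚ (C.A X)

/-- The class `z` is in the subspace of `CH^j(X)`. -/
def Family.Mem (N : Family C) (j : ℕ) (z : C.A X) : Prop := z ∈ N.N X j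

end basic

section weil

variable {C : TheoryData.{u, v, 0} 𝒱 ℚ} {K : Type w} [Field K] (H : WeilTheoryData.{u, v, w} C K)
  {X Y S : 𝒱.Obj}

/-- The class `z` is homologically trivial. -/
def HomTrivial (z : C.A X) : Prop := H.cl z = 0

/-- The formal properties of the kernels `N` of the Abel-Jacobi maps
`CH^j(X)_hom → J^(2j-1)(X) ⊗ ℚ`. -/
structure IsAJKernel (N : Family C) : Prop where
  deg : ∀ (X : 𝒱.Obj) (j : ℕ) (z : C.A X), N.Mem j z → C.Deg j z ∧ HomTrivial H z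
  stable : ∀ (X Y : 𝒱.Obj) (j i : ℕ) (Γ : C.A (X.prod Y)), C.Deg (X.dim + i - j) Γ →
    ∀ z : C.A X, N.Mem j z → N.Mem i (C.act Γ z)
  kills : ∀ (X Y : 𝒱.Obj) (j i : ℕ) (Γ : C.A (X.prod Y)), C.Deg (X.dim + i - j) Γ →
    Kills H Γ (2 * j - 1) → ∀ z : C.A X, C.Deg j z → HomTrivial H z → N.Mem i (C.act Γ z)
  abel : ∀ (X : 𝒱.Obj) (z : C.A X), N.Mem 1 z → z = 0

/-- The self-correspondence `q` of the surface `S` is a projector on its transcendental motive
`t_2(S)` (Murre; Kahn, Murre, Pedrini). -/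
structure IsTrans (S : 𝒱.Obj) (q : C.A (S.prod S)) : Prop where
  dim_eq : S.dim = 2
  deg : C.Deg 2 q
  idem : cmp q q = q
  self_dual : transp q = q
  kills : ∀ m : ℤ, m ≠ 2 → Kills H q m
  divisor : ∀ D : C.A S, C.Deg 1 D → C.act q D = 0
  diagonal : ∃ x : C.A S, C.Deg 2 x ∧ DegreeOne x ∧ PencilTheorem x ∧ C.act q x = 0 ∧
    InSpan (fun c => (∃ D D' : C.A S, C.Deg 1 D ∧ C.Deg 1 D' ∧ c = box D D') ∨
      ∃ (T : 𝒱.Obj) (o : C.A T) (i : ℕ) (f : C.A (S.prod T)) (g : C.A (T.prod S)), T.dim = 1 ∧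
        C.Deg 1 o ∧ DegreeOne o ∧ i ≤ 1 ∧ C.Deg (2 - i) f ∧ C.Deg (1 + i) g ∧
        c = cmp f (cmp (oddPart o) g)) (diag C S - box x 1 - box 1 x - q)

/-- `F^ν CH^j(X)`, for `j ≤ J`, is a Bloch-Beilinson filtration on the Chow groups of codimension at
most `J` of the varieties `X` with the property `S`: the conditions 1, 2, 3, 4 of the problem. -/
structure IsBB (N : Family C) (J : ℕ∞) (S : 𝒱.Obj → Prop) (F : Filtration C) : Prop where
  zero : ∀ X, S X → ∀ j : ℕ, (j : ℕ∞) ≤ J → ∀ z : C.A X, F.Mem j 0 z ↔ C.Deg j z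
  one : ∀ X, S X → ∀ j : ℕ, (j : ℕ∞) ≤ J → ∀ z : C.A X,
    F.Mem j 1 z ↔ C.Deg j z ∧ HomTrivial H z
  two : ∀ X, S X → ∀ j : ℕ, (j : ℕ∞) ≤ J → ∀ z : C.A X, F.Mem j 2 z ↔ N.Mem j z
  top : ∀ X, S X → ∀ j : ℕ, (j : ℕ∞) ≤ J → ∀ z : C.A X, F.Mem j (j + 1) z → z = 0
  stable : ∀ X Y, S X → S Y → ∀ j i ν : ℕ, (j : ℕ∞) ≤ J → (i : ℕ∞) ≤ J →
    ∀ Γ : C.A (X.prod Y), C.Deg (X.dim + i - j) Γ → ∀ z : C.A X, F.Mem j ν z →
      F.Mem i ν (C.act Γ z)
  shift : ∀ X Y, S X → S Y → ∀ j i ν : ℕ, (j : ℕ∞) ≤ J → (i : ℕ∞) ≤ J →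
    ∀ Γ : C.A (X.prod Y), C.Deg (X.dim + i - j) Γ → Kills H Γ (2 * j - ν) →
      ∀ z : C.A X, F.Mem j ν z → F.Mem i (ν + 1) (C.act Γ z)

/-- The injectivity of the Abel-Jacobi maps on `CH^j` of the primitive motives of weight
`2 j - 1`. -/
def AJInjective (Q : ∀ S : 𝒱.Obj, C.A (S.prod S) → Prop) (N : Family C) (j : ℕ) : Prop :=
  ∀ (P : 𝒱.Obj) (p : C.A (P.prod P)), IsPrim Q (2 * j - 1) P p →
    ∀ z : C.A P, N.Mem j z → C.act p z = z → z = 0

/-- A Bloch-Beilinson filtration exists on the Chow groups of codimension at most `J` of the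
varieties whose motives are direct summands of motives of products, of dimension at most `d`, of
curves and of surfaces. -/
def BBExists (Q : ∀ S : 𝒱.Obj, C.A (S.prod S) → Prop) (N : Family C) (d J : ℕ∞) : Prop :=
  ∃ F : Filtration C, IsBB H N J (Gen C Q d) F

end weil

end

end Pool.Agent.Hx18.BB
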