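import Pool.Agent.Y148.BB.Corr
import Pool.Agent.Hx18.BB.Stmt

/-!
# Products of the motives of curves and of transcendental motives of surfaces: basic properties
-/

set_option autoImplicit false

open CategoryTheory AlgebraicGeometry

universe u v w

namespace Pool.Agent.Hx18.BB

open Pool.Agent.H914 Pool.Agent.H914.VarClass Pool.Agent.H914.VarClass.Obj Pool.Agent.W492.BB
  Pool.Agent.W550.Corr Pool.Agent.TH133 Pool.Agent.Y148.BB

set_option linter.unusedSectionVars false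

variable {k : Type u} [Field k] {𝒱 : VarClass k}

lemma prodMap_one_iso {X Y : 𝒱.Obj} {f : X ⟶ Y} {g : Y ⟶ X} (h : f ≫ g = 𝟙 X) (Z : 𝒱.Obj) :
    prodMap (𝟙 Z) f ≫ prodMap (𝟙 Z) g = 𝟙 (Z.prod X) := by
  rw [prodMap_comp, h, Category.comp_id]
  apply prod_ext <;> simp [prodMap]

section chow

variable {C : TheoryData.{u, v, 0} 𝒱 ℚ} [hC : IsChowProj C] {X Y Z W T P R V X' Y' Z' : 𝒱.Obj}

include hC

lemma mem_of_eq {i j : ℤ} {z : C.A X} (hz : z ∈ C.gr X i) (h : i = j) : z ∈ C.gr X j := h ▸ hz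

lemma graph_comp (f : X ⟶ Y) (Γ : C.A (Y.prod Z)) :
    C.comp (C.graph f) Γ = C.pull (prodMap f (𝟙 Z)) Γ := by
  have h := wg_comp f 1 Γ
  rw [map_one, mul_one] at h
  exact h

/-- Associativity of the external product of correspondences. -/
lemma tens_assoc (Γ : C.A (X.prod X')) (Δ : C.A (Y.prod Y')) (Θ : C.A (Z.prod Z')) :
    C.comp (tens C Γ (tens C Δ Θ)) (C.graph (aJ X' Y' Z')) =
      C.comp (C.graph (aJ X Y Z)) (tens C (tens C Γ Δ) Θ) := by
  rw [comp_graph, graph_comp, ← pull_iso C (prodMap (𝟙 _) (aI X' Y' Z'))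
    (prodMap (𝟙 _) (aJ X' Y' Z')) (prodMap_one_iso aI_aJ _) (prodMap_one_iso aJ_aI _)]
  simp only [tens, map_mul, ← C.pull_comp, mul_assoc]
  have e1 : prodMap (𝟙 (X.prod (Y.prod Z))) (aI X' Y' Z') ≫
      prodMap (fst X (Y.prod Z)) (fst X' (Y'.prod Z')) =
      prodMap (aJ X Y Z) (𝟙 ((X'.prod Y').prod Z')) ≫
        prodMap (fst (X.prod Y) Z) (fst (X'.prod Y') Z') ≫ prodMap (fst X Y) (fst X' Y') := by
    rw [prodMap_comp, prodMap_comp, prodMap_comp]
    apply prod_ext <;> simp [aI, aJ, prodMap]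
  have e2 : prodMap (𝟙 (X.prod (Y.prod Z))) (aI X' Y' Z') ≫
      prodMap (snd X (Y.prod Z)) (snd X' (Y'.prod Z')) ≫ prodMap (fst Y Z) (fst Y' Z') =
      prodMap (aJ X Y Z) (𝟙 ((X'.prod Y').prod Z')) ≫
        prodMap (fst (X.prod Y) Z) (fst (X'.prod Y') Z') ≫ prodMap (snd X Y) (snd X' Y') := by
    rw [prodMap_comp, prodMap_comp, prodMap_comp, prodMap_comp]
    apply prod_ext <;> simp [aI, aJ, prodMap]
  have e3 : prodMap (𝟙 (X.prod (Y.prod Z))) (aI X' Y' Z') ≫
      prodMap (snd X (Y.prod Z)) (snd X' (Y'.prod Z')) ≫ prodMap (snd Y Z) (snd Y' Z') =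
      prodMap (aJ X Y Z) (𝟙 ((X'.prod Y').prod Z')) ≫
        prodMap (snd (X.prod Y) Z) (snd (X'.prod Y') Z') := by
    rw [prodMap_comp, prodMap_comp, prodMap_comp]
    apply prod_ext <;> simp [aI, aJ, prodMap]
  rw [e1, e2, e3]

/-- The motive `(X, p)` is a direct summand of the motive `(R, r)`. -/
def IsSummand (p : C.A (X.prod X)) (r : C.A (R.prod R)) : Prop :=
  ∃ (f : C.A (X.prod R)) (g : C.A (R.prod X)), C.Deg X.dim f ∧ C.Deg R.dim g ∧
    C.comp f g = p ∧ C.comp f r = f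

lemma IsSummand.refl {p : C.A (X.prod X)} (hp : C.Deg X.dim p) (hpp : C.comp p p = p) :
    IsSummand p p := ⟨p, p, hp, hp, hpp, hpp⟩

lemma comp_mem00 {Γ : C.A (X.prod Y)} {Δ : C.A (Y.prod Z)}
    (hΓ : Γ ∈ C.gr (X.prod Y) X.dim) (hΔ : Δ ∈ C.gr (Y.prod Z) Y.dim) :
    C.comp Γ Δ ∈ C.gr (X.prod Z) X.dim := by
  have := comp_mem C (e := 0) (e' := 0) (Γ := Γ) (Δ := Δ) (by rwa [add_zero]) (by rwa [add_zero])
  rwa [add_zero, add_zero] at this

lemma IsSummand.trans {p : C.A (X.prod X)} {r : C.A (R.prod R)} {s : C.A (V.prod V)}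
    (h : IsSummand p r) (hr : C.comp r r = r) (h' : IsSummand r s) : IsSummand p s := by
  obtain ⟨f, g, hf, hg, hfg, hfr⟩ := h
  obtain ⟨f', g', hf', hg', hfg', hfs⟩ := h'
  refine ⟨C.comp f f', C.comp g' g, comp_mem00 hf hf', comp_mem00 hg' hg, ?_, ?_⟩
  · rw [comp_assoc, ← comp_assoc C f' g' g, hfg', ← comp_assoc, hfr, hfg]
  · rw [comp_assoc, hfs]

lemma tens_mem00 {Γ : C.A (X.prod Y)} {Δ : C.A (Z.prod W)}
    (hΓ : Γ ∈ C.gr (X.prod Y) X.dim) (hΔ : Δ ∈ C.gr (Z.prod W) Z.dim) :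
    tens C Γ Δ ∈ C.gr ((X.prod Z).prod (Y.prod W)) (X.prod Z).dim := by
  refine mem_of_eq (tens_mem C hΓ hΔ) ?_
  rw [dim_prod]; push_cast; ring

lemma IsSummand.tens {p : C.A (X.prod X)} {r : C.A (R.prod R)} (h : IsSummand p r)
    {t : C.A (T.prod T)} (ht : C.Deg T.dim t) (htt : C.comp t t = t) :
    IsSummand (tens C p t) (tens C r t) := by
  obtain ⟨f, g, hf, hg, hfg, hfr⟩ := h
  refine ⟨TH133.tens C f t, TH133.tens C g t, tens_mem00 hf ht, tens_mem00 hg ht, ?_, ?_⟩
  · rw [tens_comp'', hfg, htt]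
  · rw [tens_comp'', hfr, htt]

lemma graph_mem (f : X ⟶ Y) : C.graph f ∈ C.gr (X.prod Y) Y.dim := by
  have h := C.push_mem (Obj.lift (𝟙 X) f) (C.one_mem X)
  refine mem_of_eq h ?_
  rw [dim_prod]; push_cast; ring

lemma graph_comp_graph (f : X ⟶ Y) (g : Y ⟶ Z) :
    C.comp (C.graph f) (C.graph g) = C.graph (f ≫ g) := by
  rw [comp_graph, TheoryData.graph, TheoryData.graph, ← C.push_comp]
  congr 1
  congr 1
  apply prod_ext <;> simp [prodMap, comp_lift]

lemma IsSummand.assoc {p : C.A (X.prod X)} {r : C.A (Y.prod Y)} {t : C.A (Z.prod Z)}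
    (hp : C.Deg X.dim p) (hr : C.Deg Y.dim r) (ht : C.Deg Z.dim t)
    (hpp : C.comp p p = p) (hrr : C.comp r r = r) (htt : C.comp t t = t) :
    IsSummand (TH133.tens C p (TH133.tens C r t)) (TH133.tens C (TH133.tens C p r) t) := by
  have hd : ((X.prod (Y.prod Z)).dim : ℤ) = ((X.prod Y).prod Z).dim := by
    rw [dim_prod, dim_prod, dim_prod, dim_prod]; push_cast; ring
  have h3 := tens_mem00 (C := C) hp (tens_mem00 hr ht)
  refine ⟨C.comp (TH133.tens C p (TH133.tens C r t)) (C.graph (aJ X Y Z)),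
    C.comp (C.graph (aI X Y Z)) (TH133.tens C p (TH133.tens C r t)), ?_, ?_, ?_, ?_⟩
  · refine comp_mem00 h3 (mem_of_eq (graph_mem _) hd.symm)
  · refine comp_mem00 (mem_of_eq (graph_mem _) hd) h3
  · rw [comp_assoc, ← comp_assoc C (C.graph (aJ X Y Z)), graph_comp_graph, aJ_aI]
    change C.comp _ (C.comp (dg C _) _) = _
    rw [dg_comp, tens_comp'', tens_comp'', hpp, hrr, htt]
  · rw [comp_assoc, ← tens_assoc, ← comp_assoc, tens_comp'', tens_comp'', hpp, hrr, htt]

end chow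

section weil

variable {C : TheoryData.{u, v, 0} 𝒱 ℚ} [hC : IsChowProj C] {K : Type w} [Field K]
  {H : WeilTheoryData.{u, v, w} C K} [hH : IsWeilProj H] {X Y Z W T P R V S : 𝒱.Obj}
  {Q : ∀ S : 𝒱.Obj, C.A (S.prod S) → Prop}

include hC hH

/-- The basic properties of the motives `(P, p)` of weight `n`. -/
structure IsPure (H : WeilTheoryData.{u, v, w} C K) (n : ℕ) (P : 𝒱.Obj) (p : C.A (P.prod P)) :
    Prop where
  dim_eq : P.dim = n
  deg : C.Deg P.dim p
  idem : C.comp p p = p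
  self_dual : tp C p = p
  kills : ∀ m : ℤ, m ≠ n → ∀ a ∈ H.gr P m, H.act (H.cl p) a = 0

lemma IsPure.tens {n m : ℕ} {p : C.A (P.prod P)} {r : C.A (R.prod R)} (hp : IsPure H n P p)
    (hr : IsPure H m R r) : IsPure H (n + m) (P.prod R) (TH133.tens C p r) where
  dim_eq := by rw [dim_prod, hp.dim_eq, hr.dim_eq]
  deg := tens_mem00 hp.deg hr.deg
  idem := by rw [tens_comp'', hp.idem, hr.idem]
  self_dual := by rw [tp_tens, hp.self_dual, hr.self_dual]
  kills := by
    intro i hi a ha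
    have h1 := H.kunneth P R i ha
    have h2 : Submodule.span K {c | ∃ (l : ℤ) (a : H.A P) (b : H.A R), a ∈ H.gr P l ∧
        b ∈ H.gr R (i - l) ∧ c = H.pull (fst P R) a * H.pull (snd P R) b} ≤
        LinearMap.ker (H.actL (H.cl (TH133.tens C p r))) := by
      rw [Submodule.span_le]
      rintro c ⟨l, a, b, ha, hb, rfl⟩
      rw [SetLike.mem_coe, LinearMap.mem_ker, TheoryData.actL_apply]
      change H.act (H.cl (TH133.tens C p r)) (H.ext a b) = 0
      rw [actH_tens_ext]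
      by_cases hl : l = n
      · rw [hr.kills (i - l) (by subst hl; push_cast at hi; intro h; apply hi; linarith) b hb,
          TheoryData.ext_zero_right]
      · rw [hp.kills l hl a ha, TheoryData.ext_zero_left]
    exact h2 h1

lemma isPure_curve (hT : T.dim = 1) {o : C.A T} (ho : C.Deg 1 o) (hd : HasDegree C o 1) :
    IsPure H 1 T (oddProj C o) where
  dim_eq := hT
  deg := odd_mem hT ho
  idem := odd_odd hT ho hd
  self_dual := tp_odd o
  kills := by
    intro m hm a ha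
    have := curveCK_act H hT ho hd 1 m ha
    rw [if_neg (by exact_mod_cast hm)] at this
    exact this

omit hH in
lemma degreeOne_iff {o : C.A T} : DegreeOne o ↔ HasDegree C o 1 := by
  simp only [DegreeOne, HasDegree, one_smul]

lemma isPure_surface {q : C.A (S.prod S)} (h : IsTrans H S q) : IsPure H 2 S q where
  dim_eq := h.dim_eq
  deg := by rw [h.dim_eq]; exact h.deg
  idem := h.idem
  self_dual := h.self_dual
  kills := fun m hm a ha => h.kills m (by exact_mod_cast hm) a ha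

lemma isPure_factor (hQ : ∀ S q, Q S q → IsTrans H S q) {n : ℕ} {r : C.A (T.prod T)}
    (h : IsFactor Q n T r) : IsPure H n T r := by
  cases h with
  | curve T o hT ho hd => exact isPure_curve hT ho hd
  | surface S q h => exact isPure_surface (hQ _ _ h)

lemma isPure_part (hQ : ∀ S q, Q S q → IsTrans H S q) {n : ℕ} {P : 𝒱.Obj}
    {p : C.A (P.prod P)} (h : IsPart Q n P p) : IsPure H n P p := by
  induction h with
  | factor n T r hr => exact isPure_factor hQ hr
  | prod n m P T p r hp hr ih => exact ih.tens (isPure_factor hQ hr)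

/-- A product of two parts is a direct summand of a part. -/
lemma part_prod (hQ : ∀ S q, Q S q → IsTrans H S q) {n m : ℕ} {P R : 𝒱.Obj}
    {p : C.A (P.prod P)} {r : C.A (R.prod R)} (hp : IsPart Q n P p) (hr : IsPart Q m R r) :
    ∃ (R' : 𝒱.Obj) (r' : C.A (R'.prod R')), IsPart Q (n + m) R' r' ∧
      IsSummand (TH133.tens C p r) r' := by
  induction hr with
  | factor m T r hr =>
    have h := isPure_part hQ (IsPart.prod n m P T p r hp hr)
    exact ⟨_, _, IsPart.prod n m P T p r hp hr, IsSummand.refl h.deg h.idem⟩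
  | prod m l R T r t hr ht ih =>
    obtain ⟨R', r', hR', hs⟩ := ih
    have h1 := isPure_part hQ hp
    have h2 := isPure_part hQ hr
    have h3 := isPure_factor hQ ht
    refine ⟨_, _, by rw [← add_assoc]; exact IsPart.prod (n + m) l R' T r' t hR' ht, ?_⟩
    refine (IsSummand.assoc h1.deg h2.deg h3.deg h1.idem h2.idem h3.idem).trans ?_
      (hs.tens h3.deg h3.idem)
    rw [tens_comp'', tens_comp'', h1.idem, h2.idem, h3.idem]

end weil

end Pool.Agent.Hx18.BB
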