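import Pool.Agent.Hx18.BB.Part

/-!
# Vanishing theorems for the Chow groups of products of motives of curves and surfaces

If the Abel-Jacobi maps are injective on the cycles of codimension `j` of the primitive motives of
weight `2 j - 1`, then the Chow groups of codimension `j` of the primitive motives of larger weight
vanish (in weight `2 j`, the homologically trivial part).
-/

set_option autoImplicit false

open CategoryTheory AlgebraicGeometry

universe u v w

namespace Pool.Agent.Hx18.BB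

open Pool.Agent.H914 Pool.Agent.H914.VarClass Pool.Agent.H914.VarClass.Obj Pool.Agent.W492.BB
  Pool.Agent.W550.Corr Pool.Agent.TH133 Pool.Agent.Y148.BB

set_option linter.unusedSectionVars false

variable {k : Type u} [Field k] {𝒱 : VarClass k}

variable {C : TheoryData.{u, v, 0} 𝒱 ℚ} [hC : IsChowProj C] {K : Type w} [Field K]
  {H : WeilTheoryData.{u, v, w} C K} [hH : IsWeilProj H] {X Y Z W T P R V S : 𝒱.Obj}
  {Q : ∀ S : 𝒱.Obj, C.A (S.prod S) → Prop} {N : ∀ X : 𝒱.Obj, ℕ → Submodule ℚ (C.A X)}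
  {D : ℕ∞}

/-- The vanishing properties of the Chow groups of the motive `(P, p)` of weight `n`, in the
codimensions at most `D`. -/
structure Van (H : WeilTheoryData.{u, v, w} C K) (N : ∀ X : 𝒱.Obj, ℕ → Submodule ℚ (C.A X))
    (D : ℕ∞) (n : ℕ) (P : 𝒱.Obj) (p : C.A (P.prod P)) : Prop where
  low : ∀ j : ℕ, (j : ℕ∞) ≤ D → 2 * j < n → ∀ z : C.A P, C.Deg j z → C.act p z = z → z = 0
  mid : ∀ j : ℕ, (j : ℕ∞) ≤ D → 2 * j = n → ∀ z : C.A P, C.Deg j z → C.act p z = z →
    H.cl z = 0 → z = 0
  high : ∀ j : ℕ, (j : ℕ∞) ≤ D → 2 * j = n + 1 → ∀ z ∈ N P j, C.act p z = z → z = 0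

include hC hH

lemma act_mem00 {i : ℤ} {Γ : C.A (X.prod Y)} (hΓ : Γ ∈ C.gr (X.prod Y) X.dim) {x : C.A X}
    (hx : x ∈ C.gr X i) : C.act Γ x ∈ C.gr Y i := by
  have := act_mem' C (e := 0) (by rwa [add_zero]) hx
  rwa [add_zero] at this

lemma Van.of_summand (hN : IsAbelJacobiKernel H N) {n : ℕ} {p : C.A (P.prod P)}
    {r : C.A (R.prod R)} (h : IsSummand p r) (hr : Van H N D n R r) : Van H N D n P p := by
  obtain ⟨f, g, hf, hg, hfg, hfr⟩ := h
  have key : ∀ z : C.A P, C.act p z = z → C.act f z = 0 → z = 0 := by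
    intro z hz h0
    rw [← hz, ← hfg, C.act_comp, h0, C.act_map_zero]
  have hfix : ∀ z : C.A P, C.act r (C.act f z) = C.act f z := by
    intro z
    rw [← C.act_comp, hfr]
  refine ⟨?_, ?_, ?_⟩
  · intro j hj hjn z hz hpz
    exact key z hpz (hr.low j hj hjn _ (act_mem00 (H := H) hf hz) (hfix z))
  · intro j hj hjn z hz hpz hcl
    refine key z hpz (hr.mid j hj hjn _ (act_mem00 (H := H) hf hz) (hfix z) ?_)
    rw [cl_act, hcl]
    exact map_zero (H.actL (H.cl f))
  · intro j hj hjn z hz hpz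
    refine key z hpz (hr.high j hj hjn _ (hN.stable P R j j f ?_ z hz) (hfix z))
    exact mem_of_eq hf (by ring)

lemma cl_smul_one_ne {c : ℚ} (h : H.cl (c • (1 : C.A X)) = 0) : c = 0 := by
  by_contra hc
  apply hH.one_ne_zero X
  have h1 : (1 : C.A X) = (c⁻¹ • (1 : C.A X)) * (c • (1 : C.A X)) := by
    rw [smul_mul_smul_comm, inv_mul_cancel₀ hc, one_smul, one_mul]
  rw [← map_one H.cl, h1, map_mul, h, mul_zero]

/-- Classes of codimension zero. -/
lemma zero_codim {n : ℕ} (hn : n ≠ 0) {p : C.A (P.prod P)} (hp : IsPure H n P p) {z : C.A P}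
    (hz : C.Deg 0 z) (hpz : C.act p z = z) : z = 0 := by
  obtain ⟨c, rfl⟩ := hC.gr_zero P z hz
  have h1 : H.cl (c • (1 : C.A P)) = 0 := by
    rw [← hpz, cl_act]
    refine hp.kills 0 (by exact_mod_cast hn.symm) _ ?_
    have := H.cl_mem hz
    rwa [mul_zero] at this
  rw [cl_smul_one_ne h1, zero_smul]

lemma IsPure.fix {n m : ℕ} {p : C.A (P.prod P)} {r : C.A (R.prod R)} (hp : IsPure H n P p)
    (hr : IsPure H m R r) {z : C.A (P.prod R)} (hz : C.act (TH133.tens C p r) z = z) :
    C.comp p z = z ∧ C.comp z r = z := by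
  rw [act_tens C (ch_comm C), hp.self_dual] at hz
  constructor
  · rw [← hz, ← comp_assoc, ← comp_assoc, hp.idem]
  · rw [← hz, comp_assoc, hr.idem]

lemma IsPure.fix_of {n : ℕ} {p : C.A (P.prod P)} {r : C.A (R.prod R)} (hp : IsPure H n P p)
    {z : C.A (P.prod R)} (h1 : C.comp p z = z) (h2 : C.comp z r = z) :
    C.act (TH133.tens C p r) z = z := by
  rw [act_tens C (ch_comm C), hp.self_dual, h1, h2]

lemma tp_left {n : ℕ} {p : C.A (P.prod P)} (hp : IsPure H n P p) {z : C.A (P.prod R)}
    (h : C.comp p z = z) : C.comp (tp C z) p = tp C z := by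
  conv_rhs => rw [← h]
  rw [tp_comp C (ch_comm C), hp.self_dual]

lemma tp_right {m : ℕ} {r : C.A (R.prod R)} (hr : IsPure H m R r) {z : C.A (P.prod R)}
    (h : C.comp z r = z) : C.comp r (tp C z) = tp C z := by
  conv_rhs => rw [← h]
  rw [tp_comp C (ch_comm C), hr.self_dual]

lemma kills_of_cl {Γ : C.A (X.prod Y)} (h : H.cl Γ = 0) (m : ℤ) : Kills H Γ m := by
  intro a _
  rw [h]
  exact H.act_zero a

/-- The step for a curve. -/
lemma curve_step (hfib : FibreProperty C) (hN : IsAbelJacobiKernel H N) {n : ℕ}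
    {p : C.A (P.prod P)} (hp : IsPure H n P p) (hT : T.dim = 1) {o : C.A T} (ho : C.Deg 1 o)
    (hd : HasDegree C o 1) (hV : Van H N D n P p) {j : ℕ} (hj : (j : ℕ∞) ≤ D)
    {z : C.A (P.prod T)} (hz : C.Deg j z) (hpz : C.act (TH133.tens C p (oddProj C o)) z = z)
    (h : 2 * j < n + 1 ∨ (2 * j = n + 1 ∧ H.cl z = 0)) : z = 0 := by
  have hr := isPure_curve (H := H) hT ho hd
  obtain ⟨h1, h2⟩ := hp.fix hr hpz
  have h3 := tp_left hp h1
  have h4 := tp_right hr h2
  have hzt : tp C z ∈ C.gr (T.prod P) (T.dim + ((j : ℤ) - 1)) :=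
    mem_of_eq (tp_mem C hz) (by rw [hT]; push_cast; ring)
  -- the restrictions to the fibres vanish
  have hfibre : ∀ t : C.A T, C.Deg 1 t →
      C.down (fst P T) (C.mul z (C.up (snd P T) t)) = 0 := by
    intro t ht
    have e1 : C.down (fst P T) (C.mul z (C.up (snd P T) t)) = C.act (tp C z) t :=
      (act_tp C z t).symm
    rw [e1]
    have e2 : C.act (tp C z) t = C.act (tp C z) (C.act (oddProj C o) t) := by
      rw [← C.act_comp, h4]
    have hrt : C.Deg 1 (C.act (oddProj C o) t) := act_mem00 (H := H) hr.deg ht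
    have hclt : H.cl (C.act (oddProj C o) t) = 0 := by
      rw [cl_act]
      exact hr.kills 2 (by norm_num) _ (by simpa using H.cl_mem ht)
    have hy : C.Deg j (C.act (tp C z) t) := mem_of_eq (act_mem' C hzt ht) (by ring)
    have hpy : C.act p (C.act (tp C z) t) = C.act (tp C z) t := by
      rw [← C.act_comp, h3]
    have hcly : H.cl (C.act (tp C z) t) = 0 := by
      rw [e2, cl_act, hclt]
      exact map_zero (H.actL (H.cl (tp C z)))
    rcases lt_trichotomy (2 * j) n with hlt | heq | hgt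
    · exact hV.low j hj hlt _ hy hpy
    · exact hV.mid j hj heq _ hy hpy hcly
    · obtain ⟨h5, h6⟩ : 2 * j = n + 1 ∧ H.cl z = 0 := by
        rcases h with h | h
        · omega
        · exact h
      refine hV.high j hj h5 _ ?_ hpy
      rw [e2]
      refine hN.kills T P 1 j (tp C z) (mem_of_eq hzt (by push_cast; ring)) ?_ _
        (by exact_mod_cast hrt) hclt
      refine kills_of_cl ?_ _
      rw [cl_tp, h6]
      exact TH133.tp_zero H.toTheoryData
  have h5 := hfib P T j z hT hz hfibre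
  have h6 : Submodule.span ℚ {c | ∃ (x : C.A P) (t : C.A T), C.Deg ((j : ℤ) - 1) x ∧ C.Deg 1 t ∧
      c = C.ext x t} ≤ LinearMap.ker (C.actL (TH133.tens C p (oddProj C o))) := by
    rw [Submodule.span_le]
    rintro c ⟨x, t, hx, ht, rfl⟩
    rw [SetLike.mem_coe, LinearMap.mem_ker, TheoryData.actL_apply,
      act_tens_ext C _ _ (fun f c => ch_comm C _ _)]
    have h7 : C.act p x = 0 := by
      have hx' : C.act p x ∈ C.gr P ((j : ℤ) - 1) := act_mem00 (H := H) hp.deg hx
      have hx'' : C.act p (C.act p x) = C.act p x := by rw [← C.act_comp, hp.idem]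
      rcases Nat.eq_zero_or_pos j with h0 | h0
      · subst h0
        rw [C.gr_neg P _ (by norm_num)] at hx'
        exact (Submodule.mem_bot ℚ).1 hx'
      · obtain ⟨i, rfl⟩ : ∃ i, j = i + 1 := ⟨j - 1, by omega⟩
        refine hV.low i ((by exact_mod_cast Nat.le_succ i : (i : ℕ∞) ≤ ((i + 1 : ℕ) : ℕ∞)).trans hj)
          (by omega) _ (mem_of_eq hx' (by push_cast; ring)) hx''
    rw [h7, TheoryData.ext_zero_left]
  have h8 := h6 h5
  rw [LinearMap.mem_ker, TheoryData.actL_apply, hpz] at h8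
  exact h8

omit hC hH in
lemma exists_point (C : TheoryData.{u, v, 0} 𝒱 ℚ) [hC : IsChowProj C] (T : 𝒱.Obj) :
    ∃ o : C.A T, o ∈ C.gr T T.dim ∧ HasDegree C o 1 := by
  obtain ⟨a, ha, h1, h2⟩ := exists_deg_one C T
  exact ⟨a, ha, fun Y => ⟨by rw [h2, one_smul], by rw [h1, one_smul]⟩⟩

omit hC hH in
lemma dg_curve (o : C.A T) : dg C T = oddProj C o + C.ext o 1 + C.ext 1 o := by
  rw [oddProj]; abel

/-- The step for a surface. -/
lemma surface_step (hN : IsAbelJacobiKernel H N) {n : ℕ}
    {p : C.A (P.prod P)} (hp : IsPure H n P p) {q : C.A (S.prod S)}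
    (hq : IsTrans H S q) (hV : Van H N D n P p)
    (hV' : ∀ (T : 𝒱.Obj) (o : C.A T), T.dim = 1 → C.Deg 1 o → HasDegree C o 1 →
      Van H N D (n + 1) (P.prod T) (TH133.tens C p (oddProj C o))) {j : ℕ} (hj : (j : ℕ∞) ≤ D)
    {z : C.A (P.prod S)} (hz : C.Deg j z) (hpz : C.act (TH133.tens C p q) z = z)
    (h : 2 * j < n + 2 ∨ (2 * j = n + 2 ∧ H.cl z = 0)) : z = 0 := by
  have hr := isPure_surface hq
  have hpr := hp.tens hr
  obtain ⟨h1, h2⟩ := hp.fix hr hpz
  have h3 := tp_left hp h1
  have h4 := tp_right hr h2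
  have hcl : H.cl z = 0 := by
    rcases h with h | h
    · rw [← hpz, cl_act]
      refine hpr.kills (2 * j) ?_ _ (H.cl_mem hz)
      push_cast
      omega
    · exact h.2
  have hS := hq.dim_eq
  obtain ⟨x, hx, hdx, hpen, hqx, -⟩ := hq.diagonal
  have hj1 : ∀ i : ℕ, i ≤ j → (i : ℕ∞) ≤ D := fun i hi =>
    ((by exact_mod_cast hi : (i : ℕ∞) ≤ (j : ℕ∞))).trans hj
  -- the divisor classes given by curves
  have hdiv : ∀ (T : 𝒱.Obj) (i : T ⟶ S), T.dim = 1 → C.act q (C.push i 1) = 0 := by
    intro T i hT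
    refine hq.divisor _ (mem_of_eq (C.push_mem i (C.one_mem T)) ?_)
    rw [hS, hT]; norm_num
  have hrest : ∀ (T : 𝒱.Obj) (i : T ⟶ S) (o : C.A T), T.dim = 1 → C.Deg 1 o →
      HasDegree C o 1 → C.down i o = x → C.up (prodMap (𝟙 P) i) z = 0 := by
    intro T i o hT ho hd hix
    have hpure := isPure_curve (H := H) hT ho hd
    have e0 : C.pull (prodMap (𝟙 P) i) z = C.comp z (tp C (C.graph i)) := pull_eq_comp i z
    set w := C.pull (prodMap (𝟙 P) i) z with hw
    have hwd : w ∈ C.gr (P.prod T) j := C.pull_mem _ hz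
    have e1 : C.comp p w = w := by rw [e0, ← comp_assoc, h1]
    have e2 : ∀ y : C.A T, C.act (tp C w) y = C.act (tp C z) (C.act q (C.push i y)) := by
      intro y
      rw [e0, tp_comp C (ch_comm C), tp_tp, C.act_comp, C.act_graph, ← C.act_comp, h4]
    have e3 : C.comp w (oddProj C o) = w := by
      have h5 : C.comp w (dg C T) = w := comp_dg C w
      rw [dg_curve o, comp_add, comp_add, comp_ext, comp_ext, e2, e2, hdiv T i hT,
        show C.push i o = x from hix, hqx, C.act_map_zero, TheoryData.ext_zero_left,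
        TheoryData.ext_zero_left, add_zero, add_zero] at h5
      exact h5
    have e4 : C.act (TH133.tens C p (oddProj C o)) w = w := hp.fix_of e1 e3
    have hclw : H.cl w = 0 := by rw [hw, H.cl_pull, hcl, map_zero]
    have hVT := hV' T o hT ho hd
    change w = 0
    rcases lt_trichotomy (2 * j) (n + 1) with hlt | heq | hgt
    · exact hVT.low j hj hlt w hwd e4
    · exact hVT.mid j hj heq w hwd e4 hclw
    · have h5 : 2 * j = n + 2 := by
        rcases h with h | h
        · omega
        · exact h.1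
      refine hVT.high j hj (by omega) w ?_ e4
      have hzN : z ∈ N (P.prod S) j := by
        rw [← hpz]
        refine hN.kills _ _ j j _ (mem_of_eq hpr.deg (by ring)) ?_ z hz hcl
        intro a ha
        refine hpr.kills _ ?_ a ha
        push_cast
        omega
      have h6 := hN.stable (P.prod S) (P.prod T) j j (C.cograph (prodMap (𝟙 P) i))
        (mem_of_eq (cograph_mem _) (by ring)) z hzN
      rwa [C.act_cograph] at h6
  have h5 := hpen P j z hz fun T i o hT ho hd hix => hrest T i o hT ho (degreeOne_iff.1 hd) hix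
  have h6 : Submodule.span ℚ {c | ∃ (T : 𝒱.Obj) (i : T ⟶ S) (w : C.A (P.prod T)), T.dim = 1 ∧
      C.Deg ((j : ℤ) - 1) w ∧ c = C.down (prodMap (𝟙 P) i) w} ≤
      LinearMap.ker (C.actL (TH133.tens C p q)) := by
    rw [Submodule.span_le]
    rintro c ⟨T, i, w, hT, hw, rfl⟩
    rw [SetLike.mem_coe, LinearMap.mem_ker, TheoryData.actL_apply]
    change C.act _ (C.push (prodMap (𝟙 P) i) w) = 0
    rw [← comp_graph, act_tens C (ch_comm C), hp.self_dual, ← comp_assoc, comp_assoc]
    obtain ⟨o, ho, hd⟩ := exists_point C T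
    rw [hT] at ho
    have ho' : C.Deg 1 o := by exact_mod_cast ho
    have hpure := isPure_curve (H := H) hT ho' hd
    set v := C.comp p w with hv
    have hvd : v ∈ C.gr (P.prod T) ((j : ℤ) - 1) := by
      have h7 := comp_mem C (e := 0) (e' := (j : ℤ) - 1 - P.dim) (Γ := p) (Δ := w)
        (mem_of_eq hp.deg (by ring)) (mem_of_eq hw (by ring))
      exact mem_of_eq h7 (by ring)
    have hpv : C.comp p v = v := by rw [hv, ← comp_assoc, hp.idem]
    have h8 : v = C.comp v (oddProj C o) + C.ext (C.act (tp C v) o) 1 +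
        C.ext (C.act (tp C v) 1) o := by
      conv_lhs => rw [← comp_dg C v, dg_curve o, comp_add, comp_add, comp_ext, comp_ext]
    -- the three parts
    have hA : C.comp v (oddProj C o) = 0 := by
      have e1 : C.act (TH133.tens C p (oddProj C o)) (C.comp v (oddProj C o)) =
          C.comp v (oddProj C o) := by
        refine hp.fix_of ?_ ?_
        · rw [← comp_assoc, hpv]
        · rw [comp_assoc, hpure.idem]
      have e2 : C.comp v (oddProj C o) ∈ C.gr (P.prod T) ((j : ℤ) - 1) := by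
        have h7 := comp_mem C (e := (j : ℤ) - 1 - P.dim) (e' := 0) (Γ := v) (Δ := oddProj C o)
          (mem_of_eq hvd (by ring)) (mem_of_eq hpure.deg (by ring))
        exact mem_of_eq h7 (by ring)
      rcases Nat.eq_zero_or_pos j with h0 | h0
      · subst h0
        rw [C.gr_neg _ _ (by norm_num)] at e2
        exact (Submodule.mem_bot ℚ).1 e2
      · obtain ⟨i, rfl⟩ : ∃ i, j = i + 1 := ⟨j - 1, by omega⟩
        exact (hV' T o hT ho' hd).low i (hj1 i (by omega)) (by omega) _
          (mem_of_eq e2 (by push_cast; ring)) e1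
    have hB : C.act (tp C v) 1 = 0 := by
      have e1 : C.act p (C.act (tp C v) 1) = C.act (tp C v) 1 := by
        rw [← C.act_comp, tp_left hp hpv]
      have e2 : C.act (tp C v) 1 ∈ C.gr P ((j : ℤ) - 2) := by
        have h7 := act_mem' C (e := (j : ℤ) - 2) (Γ := tp C v)
          (mem_of_eq (tp_mem C hvd) (by rw [hT]; push_cast; ring)) (C.one_mem T)
        exact mem_of_eq h7 (by ring)
      rcases lt_or_ge j 2 with h0 | h0
      · rw [C.gr_neg _ _ (by omega)] at e2
        exact (Submodule.mem_bot ℚ).1 e2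
      · obtain ⟨i, rfl⟩ : ∃ i, j = i + 2 := ⟨j - 2, by omega⟩
        exact hV.low i (hj1 i (by omega)) (by omega) _
          (mem_of_eq e2 (by push_cast; ring)) e1
    rw [h8, hA, hB, TheoryData.ext_zero_left, add_zero, zero_add, ext_comp, C.act_comp,
      C.act_graph, hdiv T i hT, TheoryData.ext_zero_right]
  have h9 := h6 h5
  rw [LinearMap.mem_ker, TheoryData.actL_apply, hpz] at h9
  exact h9

/-- The vanishing properties of the motives of weight one and two. -/
lemma van_factor (hN : IsAbelJacobiKernel H N) (hQ : ∀ S q, Q S q → IsTrans H S q)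
    {n : ℕ} {r : C.A (T.prod T)} (h : IsFactor Q n T r) : Van H N D n T r := by
  have hp := isPure_factor hQ h
  cases h with
  | curve T o hT ho hd =>
    refine ⟨?_, ?_, ?_⟩
    · intro j _ hjn z hz hpz
      obtain rfl : j = 0 := by omega
      exact zero_codim one_ne_zero hp (by exact_mod_cast hz) hpz
    · intro j _ hjn
      omega
    · intro j _ hjn z hz _
      obtain rfl : j = 1 := by omega
      exact hN.abel T z hz
  | surface S q h =>
    refine ⟨?_, ?_, ?_⟩
    · intro j _ hjn z hz hpz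
      obtain rfl : j = 0 := by omega
      exact zero_codim two_ne_zero hp (by exact_mod_cast hz) hpz
    · intro j _ hjn z hz hpz _
      obtain rfl : j = 1 := by omega
      rw [← hpz]
      exact (hQ _ _ h).divisor z (by exact_mod_cast hz)
    · intro j _ hjn
      omega

omit hC hH in
lemma IsPart.pos {n : ℕ} {p : C.A (P.prod P)} (h : IsPart Q n P p) : 1 ≤ n := by
  induction h with
  | factor n T r hr => cases hr <;> omega
  | prod n m P T p r hp hr ih => omega

omit hC hH in
/-- The condition on the injectivity of the Abel-Jacobi maps, in the codimensions at most `D`. -/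
def Inj (Q : ∀ S : 𝒱.Obj, C.A (S.prod S) → Prop) (N : ∀ X : 𝒱.Obj, ℕ → Submodule ℚ (C.A X))
    (D : ℕ∞) : Prop :=
  ∀ j : ℕ, 2 ≤ j → (j : ℕ∞) ≤ D → InjectiveOnPrimitive Q N j

omit hC hH in
lemma high_of_inj (hinj : Inj Q N D) {n : ℕ} (hn : 2 ≤ n) {p : C.A (P.prod P)}
    (h : IsPart Q n P p) :
    ∀ j : ℕ, (j : ℕ∞) ≤ D → 2 * j = n + 1 → ∀ z ∈ N P j, C.act p z = z → z = 0 := by
  intro j hj hjn z hz hpz
  obtain rfl : n = 2 * j - 1 := by omega
  exact hinj j (by omega) hj P p h z hz hpz

lemma van_curve (hfib : FibreProperty C) (hN : IsAbelJacobiKernel H N)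
    (hQ : ∀ S q, Q S q → IsTrans H S q) (hinj : Inj Q N D) {n : ℕ}
    {p : C.A (P.prod P)} (h : IsPart Q n P p) (hV : Van H N D n P p) (hT : T.dim = 1)
    {o : C.A T} (ho : C.Deg 1 o) (hd : HasDegree C o 1) :
    Van H N D (n + 1) (P.prod T) (TH133.tens C p (oddProj C o)) := by
  have hp := isPure_part hQ h
  refine ⟨?_, ?_, ?_⟩
  · intro j hj hjn z hz hpz
    exact curve_step hfib hN hp hT ho hd hV hj hz hpz (Or.inl hjn)
  · intro j hj hjn z hz hpz hcl
    exact curve_step hfib hN hp hT ho hd hV hj hz hpz (Or.inr ⟨hjn, hcl⟩)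
  · refine high_of_inj hinj ?_ (IsPart.prod n 1 P T p _ h (IsFactor.curve T o hT ho hd))
    have := IsPart.pos h
    omega

/-- **The vanishing theorem.** -/
theorem van_part (hfib : FibreProperty C) (hN : IsAbelJacobiKernel H N)
    (hQ : ∀ S q, Q S q → IsTrans H S q) (hinj : Inj Q N D) {n : ℕ}
    {p : C.A (P.prod P)} (h : IsPart Q n P p) : Van H N D n P p := by
  induction h with
  | factor n T r hr => exact van_factor hN hQ hr
  | prod n m P T p r hp hr ih =>
    cases hr with
    | curve T o hT ho hd => exact van_curve hfib hN hQ hinj hp ih hT ho hd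
    | surface S q h =>
      have hpp := isPure_part hQ hp
      have hV' : ∀ (T : 𝒱.Obj) (o : C.A T), T.dim = 1 → C.Deg 1 o → HasDegree C o 1 →
          Van H N D (n + 1) (P.prod T) (TH133.tens C p (oddProj C o)) :=
        fun T o hT ho hd => van_curve hfib hN hQ hinj hp ih hT ho hd
      refine ⟨?_, ?_, ?_⟩
      · intro j hj hjn z hz hpz
        exact surface_step hN hpp (hQ _ _ h) ih hV' hj hz hpz (Or.inl hjn)
      · intro j hj hjn z hz hpz hcl
        exact surface_step hN hpp (hQ _ _ h) ih hV' hj hz hpz (Or.inr ⟨hjn, hcl⟩)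
      · refine high_of_inj hinj ?_ (IsPart.prod n 2 P _ p _ hp (IsFactor.surface _ _ h))
        omega

end Pool.Agent.Hx18.BB
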